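import Mathlib

set_option autoImplicit false

namespace Pool.Agent.Helper33.BW

open MvPolynomial

variable {σ : Type} {k : Type} [Field k] {ι : Type}

/-- Coefficient of the term `τ` in the vector `v`. -/
noncomputable def cf (v : ι → MvPolynomial σ k) (τ : ι × (σ →₀ ℕ)) : k := coeff τ.2 (v τ.1)

/-- Multiply a term by a monomial. -/
noncomputable def sh (m : σ →₀ ℕ) (τ : ι × (σ →₀ ℕ)) : ι × (σ →₀ ℕ) := (τ.1, m + τ.2)

open Classical in
/-- The term `τ` as a vector. -/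
noncomputable def tm (τ : ι × (σ →₀ ℕ)) : ι → MvPolynomial σ k :=
  fun i => if i = τ.1 then monomial τ.2 1 else 0

/-- All terms of `v` satisfy `P`. -/
def SuppIn (v : ι → MvPolynomial σ k) (P : ι × (σ →₀ ℕ) → Prop) : Prop :=
  ∀ τ, cf v τ ≠ 0 → P τ

@[simp] lemma cf_add (v w : ι → MvPolynomial σ k) (τ : ι × (σ →₀ ℕ)) :
    cf (v + w) τ = cf v τ + cf w τ := by simp [cf]

@[simp] lemma cf_sub (v w : ι → MvPolynomial σ k) (τ : ι × (σ →₀ ℕ)) :
    cf (v - w) τ = cf v τ - cf w τ := by simp [cf]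

@[simp] lemma cf_neg (v : ι → MvPolynomial σ k) (τ : ι × (σ →₀ ℕ)) :
    cf (-v) τ = - cf v τ := by simp [cf]

@[simp] lemma cf_zero (τ : ι × (σ →₀ ℕ)) : cf (0 : ι → MvPolynomial σ k) τ = 0 := by simp [cf]

@[simp] lemma cf_C_smul (c : k) (v : ι → MvPolynomial σ k) (τ : ι × (σ →₀ ℕ)) :
    cf ((C c : MvPolynomial σ k) • v) τ = c * cf v τ := by simp [cf]

lemma cf_sum {α : Type} (s : Finset α) (f : α → ι → MvPolynomial σ k) (τ : ι × (σ →₀ ℕ)) :
    cf (∑ a ∈ s, f a) τ = ∑ a ∈ s, cf (f a) τ := by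
  simp [cf, coeff_sum, Finset.sum_apply]

lemma ext_cf {v w : ι → MvPolynomial σ k} (h : ∀ τ, cf v τ = cf w τ) : v = w := by
  funext i
  ext m
  exact h (i, m)

open Classical in
lemma cf_tm (τ τ' : ι × (σ →₀ ℕ)) :
    cf (tm τ : ι → MvPolynomial σ k) τ' = if τ = τ' then 1 else 0 := by
  obtain ⟨i, m⟩ := τ
  obtain ⟨i', m'⟩ := τ'
  unfold cf tm
  by_cases h : i' = i
  · subst h
    simp [coeff_monomial]
  · have h' : i ≠ i' := fun e => h e.symm
    simp [h, h']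

lemma cf_tm_self (τ : ι × (σ →₀ ℕ)) : cf (tm τ : ι → MvPolynomial σ k) τ = 1 := by
  classical
  simp [cf_tm]

lemma cf_mono_smul_sh (m : σ →₀ ℕ) (c : k) (v : ι → MvPolynomial σ k) (τ : ι × (σ →₀ ℕ)) :
    cf ((monomial m c : MvPolynomial σ k) • v) (sh m τ) = c * cf v τ := by
  simp [cf, sh, coeff_monomial_mul]

lemma cf_mono_smul_ne (m : σ →₀ ℕ) (c : k) (v : ι → MvPolynomial σ k) (τ : ι × (σ →₀ ℕ))
    (h : cf ((monomial m c : MvPolynomial σ k) • v) τ ≠ 0) :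
    ∃ τ', τ = sh m τ' ∧ cf v τ' ≠ 0 := by
  obtain ⟨i, m'⟩ := τ
  have h2 : coeff m' (monomial m c * v i) ≠ 0 := by simpa [cf] using h
  rw [coeff_monomial_mul'] at h2
  by_cases hm : m ≤ m'
  · rw [if_pos hm] at h2
    refine ⟨(i, m' - m), ?_, ?_⟩
    · unfold sh
      simp only
      rw [add_tsub_cancel_of_le hm]
    · intro h3
      apply h2
      have : coeff (m' - m) (v i) = 0 := h3
      rw [this, mul_zero]
  · rw [if_neg hm] at h2
    exact absurd rfl h2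

lemma sh_inj (m : σ →₀ ℕ) {a b : ι × (σ →₀ ℕ)} (h : sh m a = sh m b) : a = b := by
  obtain ⟨i, x⟩ := a
  obtain ⟨j, y⟩ := b
  unfold sh at h
  simp only [Prod.mk.injEq, add_right_inj] at h
  rw [h.1, h.2]

lemma sh_sh (m m' : σ →₀ ℕ) (a : ι × (σ →₀ ℕ)) : sh m (sh m' a) = sh (m + m') a := by
  unfold sh
  simp [add_assoc]

lemma sh_zero (a : ι × (σ →₀ ℕ)) : sh 0 a = a := by
  unfold sh
  simp

lemma mono_smul_tm (m : σ →₀ ℕ) (τ : ι × (σ →₀ ℕ)) :
    (monomial m (1 : k) : MvPolynomial σ k) • (tm τ : ι → MvPolynomial σ k) = tm (sh m τ) := by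
  classical
  obtain ⟨i, x⟩ := τ
  funext j
  unfold tm sh
  by_cases h : j = i
  · subst h
    simp [monomial_mul]
  · simp [h]

lemma SuppIn.mono {v : ι → MvPolynomial σ k} {P Q : ι × (σ →₀ ℕ) → Prop} (h : SuppIn v P)
    (hPQ : ∀ τ, P τ → Q τ) : SuppIn v Q := fun τ hτ => hPQ τ (h τ hτ)

lemma SuppIn.add {v w : ι → MvPolynomial σ k} {P : ι × (σ →₀ ℕ) → Prop} (h : SuppIn v P)
    (h' : SuppIn w P) : SuppIn (v + w) P := by
  intro τ hτ
  by_cases h1 : cf v τ = 0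
  · by_cases h2 : cf w τ = 0
    · simp [h1, h2] at hτ
    · exact h' τ h2
  · exact h τ h1

lemma SuppIn.neg {v : ι → MvPolynomial σ k} {P : ι × (σ →₀ ℕ) → Prop} (h : SuppIn v P) :
    SuppIn (-v) P := by
  intro τ hτ
  apply h τ
  simpa using hτ

lemma SuppIn.sub {v w : ι → MvPolynomial σ k} {P : ι × (σ →₀ ℕ) → Prop} (h : SuppIn v P)
    (h' : SuppIn w P) : SuppIn (v - w) P := by
  rw [sub_eq_add_neg]
  exact h.add h'.neg

lemma SuppIn.C_smul {v : ι → MvPolynomial σ k} {P : ι × (σ →₀ ℕ) → Prop} (c : k)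
    (h : SuppIn v P) : SuppIn ((C c : MvPolynomial σ k) • v) P := by
  intro τ hτ
  apply h τ
  intro h0
  simp [h0] at hτ

lemma SuppIn.sum {α : Type} (s : Finset α) (f : α → ι → MvPolynomial σ k)
    {P : ι × (σ →₀ ℕ) → Prop} (h : ∀ a ∈ s, SuppIn (f a) P) : SuppIn (∑ a ∈ s, f a) P := by
  intro τ hτ
  rw [cf_sum] at hτ
  obtain ⟨a, ha, hne⟩ := Finset.exists_ne_zero_of_sum_ne_zero hτ
  exact h a ha τ hne

lemma SuppIn.tm {τ : ι × (σ →₀ ℕ)} {P : ι × (σ →₀ ℕ) → Prop} (h : P τ) :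
    SuppIn (tm τ : ι → MvPolynomial σ k) P := by
  classical
  intro τ' hτ'
  rw [cf_tm] at hτ'
  by_cases e : τ = τ'
  · rw [← e]; exact h
  · simp [e] at hτ'

/-- The finite set of terms of `v`. -/
noncomputable def fsupp [Fintype ι] (v : ι → MvPolynomial σ k) : Finset (ι × (σ →₀ ℕ)) :=
  ((Finset.univ : Finset ι).sigma (fun i => (v i).support)).map
    (Equiv.sigmaEquivProd ι (σ →₀ ℕ)).toEmbedding

lemma mem_fsupp [Fintype ι] (v : ι → MvPolynomial σ k) (τ : ι × (σ →₀ ℕ)) :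
    τ ∈ fsupp v ↔ cf v τ ≠ 0 := by
  obtain ⟨i, m⟩ := τ
  unfold fsupp cf
  simp only [Finset.mem_map_equiv, Finset.mem_sigma, Finset.mem_univ, true_and]
  rw [mem_support_iff]
  rfl

/-- Expansion of a vector in terms. -/
lemma expand [Fintype ι] (v : ι → MvPolynomial σ k) :
    v = ∑ τ ∈ fsupp v, (C (cf v τ) : MvPolynomial σ k) • (tm τ : ι → MvPolynomial σ k) := by
  classical
  apply ext_cf
  intro τ
  rw [cf_sum]
  simp only [cf_C_smul, cf_tm]
  by_cases h : τ ∈ fsupp v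
  · rw [Finset.sum_eq_single τ]
    · simp
    · intro b _ hb
      simp [hb]
    · intro h'
      exact absurd h h'
  · have h0 : cf v τ = 0 := by
      by_contra h1
      exact h ((mem_fsupp v τ).2 h1)
    rw [h0]
    symm
    apply Finset.sum_eq_zero
    intro b hb
    have : b ≠ τ := by
      rintro rfl
      exact h hb
    simp [this]

end Pool.Agent.Helper33.BW
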