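import Pool.Agent.Helper33.BW.Step

set_option autoImplicit false
set_option linter.unusedSectionVars false

namespace Pool.Agent.Helper33.BW

open MvPolynomial

lemma sum_idx {α : Type} [DecidableEq α] (f : α → ℕ) (g : ℕ → ℕ) (B : Finset α)
    (hf : Set.InjOn f B) :
    ∑ j ∈ B, g ((B.filter (fun i => f i < f j)).card) = ∑ i ∈ Finset.range B.card, g i := by
  induction B using Finset.induction_on_max_value f with
  | empty => simp
  | insert a s ha hmax ih =>
    have hf' : Set.InjOn f s := hf.mono (by simp)
    have hlt : ∀ x ∈ s, f x < f a := by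
      intro x hx
      refine lt_of_le_of_ne (hmax x hx) ?_
      intro e
      have := hf (by simp [hx]) (by simp) e
      exact ha (this ▸ hx)
    rw [Finset.sum_insert ha, Finset.card_insert_of_notMem ha, Finset.sum_range_succ, ← ih hf',
      add_comm]
    congr 1
    · apply Finset.sum_congr rfl
      intro j hj
      congr 2
      ext i
      simp only [Finset.mem_filter, Finset.mem_insert]
      constructor
      · rintro ⟨h | h, h'⟩
        · subst h
          exact absurd h' (not_lt.2 (hlt j hj).le)
        · exact ⟨h, h'⟩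
      · rintro ⟨h, h'⟩
        exact ⟨Or.inr h, h'⟩
    · congr 2
      ext i
      simp only [Finset.mem_filter, Finset.mem_insert]
      constructor
      · rintro ⟨h | h, h'⟩
        · subst h
          exact absurd h' (lt_irrefl _)
        · exact h
      · intro h
        exact ⟨Or.inr h, hlt i h⟩

lemma sum_choose_idx {α : Type} [LinearOrder α] (B : Finset α) (s : ℕ) :
    ∑ j ∈ B, ((B.filter (fun i => i < j)).card).choose s = B.card.choose (s + 1) := by
  induction B using Finset.induction_on_max with
  | empty => simp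
  | insert a B hlt ih =>
    have ha : a ∉ B := fun h => lt_irrefl _ (hlt a h)
    rw [Finset.sum_insert ha, Finset.card_insert_of_notMem ha, Nat.choose_succ_succ, ← ih]
    congr 1
    · congr 2
      ext i
      simp only [Finset.mem_filter, Finset.mem_insert]
      constructor
      · rintro ⟨h | h, h'⟩
        · subst h
          exact absurd h' (lt_irrefl _)
        · exact h
      · intro h
        exact ⟨Or.inr h, hlt i h⟩
    · apply Finset.sum_congr rfl
      intro j hj
      congr 2
      ext i
      simp only [Finset.mem_filter, Finset.mem_insert]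
      constructor
      · rintro ⟨h | h, h'⟩
        · subst h
          exact absurd h' (not_lt.2 (hlt j hj).le)
        · exact ⟨h, h'⟩
      · rintro ⟨h, h'⟩
        exact ⟨Or.inr h, h'⟩

variable {σ : Type} {k : Type} [Field k]

/-- A submodule is staged with rank function `W`. -/
def IsStage (ι : Type) [Fintype ι] (N : Submodule (MvPolynomial σ k) (ι → MvPolynomial σ k))
    (W : ℕ → ℕ) : Prop :=
  ∃ S : Stage ι N, ∀ s, W s = ∑ l : S.L, ((S.NM l).card).choose s

/-- Reindexing the family of a stage by a standard finite type. -/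
noncomputable def Stage.reindex {ι : Type} {N : Submodule (MvPolynomial σ k) (ι → MvPolynomial σ k)}
    (S : Stage ι N) {L' : Type} [Fintype L'] (e : L' ≃ S.L) : Stage ι N where
  R := S.R
  Rtrans := S.Rtrans
  Rwf := S.Rwf
  Rmono := S.Rmono
  Std := S.Std
  s1 := S.s1
  s2 := S.s2
  L := L'
  fin := inferInstance
  lead := fun x => S.lead (e x)
  NM := fun x => S.NM (e x)
  lt := fun x y => S.lt (e x) (e y)
  ltTrans := fun a b c h h' => S.ltTrans _ _ _ h h'
  ltwf := InvImage.wf e S.ltwf
  b1e := by
    intro τ hτ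
    obtain ⟨l, m, h1, h2⟩ := S.b1e τ hτ
    exact ⟨e.symm l, m, by simpa using h1, by simpa using h2⟩
  b1u := by
    intro l m l' m' h1 h2 h3
    exact e.injective (S.b1u _ _ _ _ h1 h2 h3)
  b2 := fun l m => S.b2 _ _
  b3 := by
    intro l m l' m' h1 h2
    rcases S.b3 _ _ _ _ h1 h2 with h | h
    · exact Or.inl (e.injective h)
    · exact Or.inr h

variable [LinearOrder σ] [Finite σ]

lemma step_isStage {ι : Type} [Fintype ι]
    (N : Submodule (MvPolynomial σ k) (ι → MvPolynomial σ k)) (W : ℕ → ℕ) (h : IsStage ι N W) :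
    ∃ d : (Fin (W 0) → MvPolynomial σ k) →ₗ[MvPolynomial σ k] (ι → MvPolynomial σ k),
      LinearMap.range d = N ∧ IsStage (Fin (W 0)) (LinearMap.ker d) (fun s => W (s + 1)) := by
  obtain ⟨S, hS⟩ := h
  have h0 : W 0 = Fintype.card S.L := by
    rw [hS 0]
    simp
  let e : Fin (W 0) ≃ S.L := (finCongr h0).trans (Fintype.equivFin S.L).symm
  let S' := S.reindex e
  refine ⟨S'.dd, S'.range_dd, S'.next, ?_⟩
  intro s
  show W (s + 1) = ∑ l : (Σ l : Fin (W 0), {j // j ∈ S.NM (e l)}),
    (((S.NM (e l.1)).filter (fun j => j < l.2.1)).card).choose s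
  rw [Fintype.sum_sigma, hS (s + 1), ← Equiv.sum_comp e]
  apply Finset.sum_congr rfl
  intro l _
  rw [← sum_choose_idx]
  rw [← Finset.sum_coe_sort (S.NM (e l))]

/-- The resolution produced by iterating the step. -/
theorem chain {ι : Type} [Fintype ι]
    (N : Submodule (MvPolynomial σ k) (ι → MvPolynomial σ k)) (W : ℕ → ℕ) (h : IsStage ι N W) :
    ∃ (d₀ : (Fin (W 0) → MvPolynomial σ k) →ₗ[MvPolynomial σ k] (ι → MvPolynomial σ k))
      (d : ∀ t : ℕ, (Fin (W (t + 1)) → MvPolynomial σ k) →ₗ[MvPolynomial σ k]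
        (Fin (W t) → MvPolynomial σ k)),
      LinearMap.range d₀ = N ∧ LinearMap.range (d 0) = LinearMap.ker d₀ ∧
      ∀ t, LinearMap.range (d (t + 1)) = LinearMap.ker (d t) := by
  obtain ⟨d₀, h1, h2⟩ := step_isStage N W h
  have step : ∀ t : ℕ, ∀ M : Submodule (MvPolynomial σ k) (Fin (W t) → MvPolynomial σ k),
      IsStage (Fin (W t)) M (fun s => W (t + 1 + s)) →
      ∃ d : (Fin (W (t + 1)) → MvPolynomial σ k) →ₗ[MvPolynomial σ k]
        (Fin (W t) → MvPolynomial σ k), LinearMap.range d = M ∧
        IsStage (Fin (W (t + 1))) (LinearMap.ker d) (fun s => W (t + 1 + 1 + s)) := by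
    intro t M hM
    obtain ⟨d, hd, hd'⟩ := step_isStage M _ hM
    refine ⟨d, hd, ?_⟩
    have e : (fun s => W (t + 1 + 1 + s)) = (fun s => W (t + 1 + (s + 1))) := by
      funext s
      congr 1
      omega
    rw [e]
    exact hd'
  choose! D hD hD' using step
  let st : ∀ t : ℕ, {M : Submodule (MvPolynomial σ k) (Fin (W t) → MvPolynomial σ k) //
      IsStage (Fin (W t)) M (fun s => W (t + 1 + s))} := fun t =>
    Nat.rec ⟨LinearMap.ker d₀, by
      have e : (fun s => W (0 + 1 + s)) = (fun s => W (s + 1)) := by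
        funext s
        congr 1
        omega
      rw [e]
      exact h2⟩ (fun t M => ⟨LinearMap.ker (D t M.1), hD' t M.1 M.2⟩) t
  refine ⟨d₀, fun t => D t (st t).1, h1, ?_, ?_⟩
  · exact hD 0 (st 0).1 (st 0).2
  · intro t
    exact hD (t + 1) (st (t + 1)).1 (st (t + 1)).2

end Pool.Agent.Helper33.BW
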