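import Mathlib

set_option autoImplicit false
set_option linter.unusedSectionVars false

namespace Pool.Agent.Helper33.BW

/-- Combinatorial data of a two-block set of standard monomials. -/
structure Cone (σ : Type) [DecidableEq σ] where
  Std : (σ →₀ ℕ) → Prop
  std0 : Std 0
  down : ∀ a b, Std (a + b) → Std a
  mid : Finset σ
  z : σ
  hz : z ∉ mid
  O : Finset (σ →₀ ℕ)
  hO : ∀ v, v ∈ O ↔ Std v ∧ ∀ i, i ∉ mid → v i = 0
  β : (σ →₀ ℕ) → ℕ
  hβ1 : ∀ v ∈ O, ¬ Std (v + Finsupp.single z (β v))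
  hβ2 : ∀ m, ¬ Std m → (m.filter (· ∈ mid)) ∈ O → β (m.filter (· ∈ mid)) ≤ m z
  p : σ → ℕ
  hp : Set.InjOn p mid

namespace Cone

variable {σ : Type} [DecidableEq σ] (K : Cone σ)

/-- The middle part of a monomial. -/
noncomputable def md (m : σ →₀ ℕ) : σ →₀ ℕ := m.filter (· ∈ K.mid)

lemma md_apply (m : σ →₀ ℕ) (i : σ) : K.md m i = if i ∈ K.mid then m i else 0 := by
  unfold md
  rw [Finsupp.filter_apply]

lemma le_std {a b : σ →₀ ℕ} (h : a ≤ b) (hb : K.Std b) : K.Std a := by
  apply K.down a (b - a)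
  rwa [add_tsub_cancel_of_le h]

lemma zero_mem : (0 : σ →₀ ℕ) ∈ K.O := (K.hO 0).2 ⟨K.std0, fun _ _ => rfl⟩

lemma le_O {a b : σ →₀ ℕ} (h : a ≤ b) (hb : b ∈ K.O) : a ∈ K.O := by
  rw [K.hO] at hb ⊢
  refine ⟨K.le_std h hb.1, fun i hi => ?_⟩
  have := h i
  rw [hb.2 i hi] at this
  omega

/-- The lexicographic comparison of the middle parts. -/
def lexlt (a b : σ →₀ ℕ) : Prop :=
  ∃ i ∈ K.mid, a i < b i ∧ ∀ i' ∈ K.mid, K.p i' < K.p i → a i' = b i'

lemma lexlt_irrefl (a : σ →₀ ℕ) : ¬ K.lexlt a a := by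
  rintro ⟨i, _, h, _⟩
  exact lt_irrefl _ h

lemma lexlt_trans (a b c : σ →₀ ℕ) (h1 : K.lexlt a b) (h2 : K.lexlt b c) : K.lexlt a c := by
  obtain ⟨i, hi, hlt, hi'⟩ := h1
  obtain ⟨j, hj, hlt', hj'⟩ := h2
  rcases lt_trichotomy (K.p i) (K.p j) with h | h | h
  · refine ⟨i, hi, ?_, ?_⟩
    · rw [← hj' i hi h]; exact hlt
    · intro i' h1 h2
      rw [hi' i' h1 h2, hj' i' h1 (h2.trans h)]
  · have e := K.hp hi hj h
    subst e
    refine ⟨i, hi, hlt.trans hlt', ?_⟩
    intro i' h1 h2
    rw [hi' i' h1 h2, hj' i' h1 h2]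
  · refine ⟨j, hj, ?_, ?_⟩
    · rw [hi' j hj h]; exact hlt'
    · intro i' h1 h2
      rw [hi' i' h1 (h2.trans h), hj' i' h1 h2]

/-- The generators of the first type. -/
def IsGen (v : σ →₀ ℕ) (j : σ) : Prop :=
  v ∈ K.O ∧ j ∈ K.mid ∧ (∀ i, v i ≠ 0 → K.p i ≤ K.p j) ∧ v + Finsupp.single j 1 ∉ K.O

lemma exists_gen (n : ℕ) : ∀ U : σ →₀ ℕ, U.degree = n → (∀ i, i ∉ K.mid → U i = 0) → U ∉ K.O →
    ∃ v j m, K.IsGen v j ∧ (∀ i ∈ K.mid, K.p i < K.p j → (m : σ →₀ ℕ) i = 0) ∧
      m + (v + Finsupp.single j 1) = U := by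
  induction n with
  | zero =>
    intro U h1 _ h2
    exfalso
    apply h2
    rw [(Finsupp.degree_eq_zero_iff U).1 h1]
    exact K.zero_mem
  | succ n ih =>
    intro U h1 h2 h3
    have hne : U.support.Nonempty := by
      rw [Finsupp.support_nonempty_iff]
      rintro rfl
      exact h3 K.zero_mem
    obtain ⟨j, hj, hmax⟩ := Finset.exists_max_image U.support K.p hne
    have hjmid : j ∈ K.mid := by
      by_contra h
      exact (Finsupp.mem_support_iff.1 hj) (h2 j h)
    have hle : Finsupp.single j 1 ≤ U := by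
      rw [Finsupp.single_le_iff]
      have := Finsupp.mem_support_iff.1 hj
      omega
    obtain ⟨U', hU'⟩ : ∃ U', U = U' + Finsupp.single j 1 :=
      ⟨U - Finsupp.single j 1, (tsub_add_cancel_of_le hle).symm⟩
    have hU'U : U' ≤ U := by rw [hU']; exact le_self_add
    by_cases hO : U' ∈ K.O
    · refine ⟨U', j, 0, ⟨hO, hjmid, ?_, ?_⟩, fun _ _ _ => rfl, ?_⟩
      · intro i hi
        apply hmax
        rw [Finsupp.mem_support_iff]
        have := hU'U i
        omega
      · rw [← hU']; exact h3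
      · rw [zero_add, ← hU']
    · have hd : U'.degree = n := by
        have : U.degree = U'.degree + 1 := by
          rw [hU', map_add, Finsupp.degree_single]
        omega
      have h2' : ∀ i, i ∉ K.mid → U' i = 0 := by
        intro i hi
        have := hU'U i
        rw [h2 i hi] at this
        omega
      obtain ⟨v, j', m, hg, hfree, hsum⟩ := ih U' hd h2' hO
      refine ⟨v, j', m + Finsupp.single j 1, hg, ?_, ?_⟩
      · intro i hi hlt
        have hj' : j' ∈ U.support := by
          rw [Finsupp.mem_support_iff]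
          have h4 := hU'U j'
          rw [← hsum] at h4
          simp at h4
          omega
        have h5 := hmax j' hj'
        have h6 : i ≠ j := by
          rintro rfl
          omega
        simp [hfree i hi hlt, h6.symm]
      · rw [hU', ← hsum]
        abel

/-- Comparison of a divisor of the middle part with the canonical generator. -/
lemma cmp {v₀ : σ →₀ ℕ} {j₀ : σ} (hg : K.IsGen v₀ j₀) (m₀ u' : σ →₀ ℕ)
    (hfree : ∀ i ∈ K.mid, K.p i < K.p j₀ → m₀ i = 0)
    (hle : ∀ i ∈ K.mid, u' i ≤ m₀ i + (v₀ + Finsupp.single j₀ 1 : σ →₀ ℕ) i)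
    (hu' : u' ∈ K.O ∨ ∃ v j, K.IsGen v j ∧ u' = v + Finsupp.single j 1) :
    u' = v₀ + Finsupp.single j₀ 1 ∨ K.lexlt u' (v₀ + Finsupp.single j₀ 1) := by
  set u₀ := v₀ + Finsupp.single j₀ 1 with hu₀
  obtain ⟨hv₀, hj₀, hmax₀, hn₀⟩ := hg
  -- support of u₀
  have hsupp : ∀ i, u₀ i ≠ 0 → K.p i ≤ K.p j₀ := by
    intro i hi
    by_cases e : i = j₀
    · rw [e]
    · apply hmax₀
      intro h
      apply hi
      rw [hu₀]
      simp [h, e]
  have hu₀mid : ∀ i, i ∉ K.mid → u₀ i = 0 := by
    intro i hi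
    have h1 := ((K.hO v₀).1 hv₀).2 i hi
    have h2 : i ≠ j₀ := by
      rintro rfl
      exact hi hj₀
    rw [hu₀]
    simp [h1, h2]
  -- it suffices to exclude agreement up to j₀ (with excess at j₀)
  have key : (∀ i ∈ K.mid, K.p i < K.p j₀ → u' i = u₀ i) → u₀ j₀ ≤ u' j₀ →
      u' = u₀ := by
    intro hag hj
    have hle0 : ∀ w : σ →₀ ℕ, (∀ i ∈ K.mid, K.p i ≤ K.p j₀ → u₀ i ≤ w i) → u₀ ≤ w := by
      intro w hw i
      by_cases hi : i ∈ K.mid
      · by_cases h0 : u₀ i = 0
        · rw [h0]; exact Nat.zero_le _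
        · exact hw i hi (hsupp i h0)
      · rw [hu₀mid i hi]; exact Nat.zero_le _
    have hle1 : ∀ i ∈ K.mid, K.p i ≤ K.p j₀ → u₀ i ≤ u' i := by
      intro i hi hp
      rcases hp.lt_or_eq with h | h
      · exact (hag i hi h).ge
      · rw [K.hp hi hj₀ h]; exact hj
    rcases hu' with hu' | ⟨v, j, ⟨hv, hjm, hmax, hn⟩, rfl⟩
    · exact absurd (K.le_O (hle0 _ hle1) hu') hn₀
    · -- p j₀ ≤ p j
      have hpj : K.p j₀ ≤ K.p j := by
        by_cases e : j = j₀
        · rw [e]
        · apply hmax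
          have h1 := hle1 j₀ hj₀ le_rfl
          have h2 : u₀ j₀ ≠ 0 := by rw [hu₀]; simp
          have h3 : (v + Finsupp.single j 1 : σ →₀ ℕ) j₀ = v j₀ := by simp [Ne.symm e]
          rw [h3] at h1
          omega
      rcases hpj.lt_or_eq with h | h
      · exfalso
        apply hn₀
        refine K.le_O (hle0 v ?_) hv
        intro i hi hp
        have h1 := hle1 i hi hp
        have h2 : i ≠ j := by
          rintro rfl
          omega
        simpa [h2] using h1
      · have e := K.hp hj₀ hjm h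
        subst e
        by_cases hx : u₀ j₀ = (v + Finsupp.single j₀ 1 : σ →₀ ℕ) j₀
        · ext i
          by_cases hi : i ∈ K.mid
          · rcases lt_trichotomy (K.p i) (K.p j₀) with h1 | h1 | h1
            · exact hag i hi h1
            · rw [K.hp hi hj₀ h1]; exact hx.symm
            · have h2 : v i = 0 := by
                by_contra h3
                exact absurd (hmax i h3) (not_le.2 h1)
              have h3 : u₀ i = 0 := by
                by_contra h3
                exact absurd (hsupp i h3) (not_le.2 h1)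
              have h4 : i ≠ j₀ := by
                rintro rfl
                omega
              rw [h3]
              simp [h2, h4]
          · rw [hu₀mid i hi]
            have h1 := ((K.hO v).1 hv).2 i hi
            have h2 : i ≠ j₀ := by
              rintro rfl
              exact hi hj₀
            simp [h1, h2]
        · exfalso
          apply hn₀
          refine K.le_O (hle0 v ?_) hv
          intro i hi hp
          rcases hp.lt_or_eq with h1 | h1
          · have h2 := hag i hi h1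
            have h3 : i ≠ j₀ := by
              rintro rfl
              omega
            rw [← h2]
            simp [h3]
          · rw [K.hp hi hj₀ h1]
            simp at hj hx
            omega
  -- first difference
  by_cases hag : ∀ i ∈ K.mid, K.p i < K.p j₀ → u' i = u₀ i
  · by_cases hj : u₀ j₀ ≤ u' j₀
    · exact Or.inl (key hag hj)
    · right
      exact ⟨j₀, hj₀, not_le.1 hj, hag⟩
  · right
    push Not at hag
    obtain ⟨i, hi, hp, hne⟩ := hag
    have hne' : (K.mid.filter (fun i => u' i ≠ u₀ i)).Nonempty :=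
      ⟨i, Finset.mem_filter.2 ⟨hi, hne⟩⟩
    obtain ⟨i₁, hi₁, hmin⟩ := Finset.exists_min_image _ K.p hne'
    obtain ⟨hi₁m, hne₁⟩ := Finset.mem_filter.1 hi₁
    have hp₁ : K.p i₁ < K.p j₀ := lt_of_le_of_lt (hmin i (Finset.mem_filter.2 ⟨hi, hne⟩)) hp
    refine ⟨i₁, hi₁m, ?_, ?_⟩
    · have h1 := hle i₁ hi₁m
      rw [hfree i₁ hi₁m hp₁, zero_add] at h1
      exact lt_of_le_of_ne h1 hne₁
    · intro i' h1 h2
      by_contra h3
      exact absurd (hmin i' (Finset.mem_filter.2 ⟨h1, h3⟩)) (not_le.2 h2)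

lemma lexlt_of_le {a b : σ →₀ ℕ} (h : ∀ i ∈ K.mid, a i ≤ b i) (ha : ∀ i, i ∉ K.mid → a i = 0)
    (hb : ∀ i, i ∉ K.mid → b i = 0) : a = b ∨ K.lexlt a b := by
  by_cases e : a = b
  · exact Or.inl e
  · right
    have : ∃ i ∈ K.mid, a i ≠ b i := by
      by_contra hc
      push Not at hc
      apply e
      ext i
      by_cases hi : i ∈ K.mid
      · exact hc i hi
      · rw [ha i hi, hb i hi]
    obtain ⟨i, hi, hne⟩ := this
    have hne' : (K.mid.filter (fun i => a i ≠ b i)).Nonempty :=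
      ⟨i, Finset.mem_filter.2 ⟨hi, hne⟩⟩
    obtain ⟨i₁, hi₁, hmin⟩ := Finset.exists_min_image _ K.p hne'
    obtain ⟨hi₁m, hne₁⟩ := Finset.mem_filter.1 hi₁
    refine ⟨i₁, hi₁m, lt_of_le_of_ne (h i₁ hi₁m) hne₁, ?_⟩
    intro i' h1 h2
    by_contra h3
    exact absurd (hmin i' (Finset.mem_filter.2 ⟨h1, h3⟩)) (not_le.2 h2)

lemma gen_inj {v₁ v₂ : σ →₀ ℕ} {j₁ j₂ : σ} (h1 : K.IsGen v₁ j₁) (h2 : K.IsGen v₂ j₂)
    (h : v₁ + Finsupp.single j₁ 1 = v₂ + Finsupp.single j₂ 1) : v₁ = v₂ ∧ j₁ = j₂ := by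
  have hj : j₁ = j₂ := by
    apply K.hp h1.2.1 h2.2.1
    by_contra hne
    have e : j₁ ≠ j₂ := fun e => hne (by rw [e])
    have a1 : v₂ j₁ ≠ 0 := by
      have := DFunLike.congr_fun h j₁
      simp [e] at this
      omega
    have a2 : v₁ j₂ ≠ 0 := by
      have := DFunLike.congr_fun h j₂
      simp [e.symm] at this
      omega
    exact hne (le_antisymm (h2.2.2.1 _ a1) (h1.2.2.1 _ a2))
  subst hj
  exact ⟨add_right_cancel h, rfl⟩

open Classical in
/-- The finite set of generators of the first type. -/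
noncomputable def G : Finset ((σ →₀ ℕ) × σ) :=
  (K.O ×ˢ K.mid).filter (fun x => K.IsGen x.1 x.2)

lemma mem_G (x : (σ →₀ ℕ) × σ) : x ∈ K.G ↔ K.IsGen x.1 x.2 := by
  classical
  unfold G
  rw [Finset.mem_filter, Finset.mem_product]
  constructor
  · exact fun h => h.2
  · exact fun h => ⟨⟨h.1, h.2.1⟩, h⟩

/-- The index type of the family. -/
abbrev Lam : Type := {x // x ∈ K.G} ⊕ {v // v ∈ K.O}

/-- Leading monomials of the family. -/
noncomputable def lead : K.Lam → (σ →₀ ℕ)
  | Sum.inl x => x.1.1 + Finsupp.single x.1.2 1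
  | Sum.inr v => v.1 + Finsupp.single K.z (K.β v.1)

/-- Their middle parts. -/
noncomputable def mlead : K.Lam → (σ →₀ ℕ)
  | Sum.inl x => x.1.1 + Finsupp.single x.1.2 1
  | Sum.inr v => v.1

/-- The forbidden variables. -/
def NM : K.Lam → Finset σ
  | Sum.inl x => K.mid.filter (fun i => K.p i < K.p x.1.2)
  | Sum.inr _ => K.mid

/-- The relation on the family. -/
def lt (x y : K.Lam) : Prop := K.lexlt (K.mlead y) (K.mlead x)

lemma lt_wf : WellFounded K.lt := by
  have : Finite K.Lam := inferInstance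
  have ht : IsTrans K.Lam K.lt := ⟨fun a b c h h' => K.lexlt_trans _ _ _ h' h⟩
  have hi : Std.Irrefl K.lt := ⟨fun a => K.lexlt_irrefl _⟩
  exact Finite.wellFounded_of_trans_of_irrefl _

lemma mlead_type (x : K.Lam) : K.mlead x ∈ K.O ∨
    ∃ v j, K.IsGen v j ∧ K.mlead x = v + Finsupp.single j 1 := by
  rcases x with x | v
  · right
    exact ⟨x.1.1, x.1.2, (K.mem_G _).1 x.2, rfl⟩
  · left
    exact v.2

lemma lead_mid (x : K.Lam) (i : σ) (hi : i ∈ K.mid) : K.lead x i = K.mlead x i := by
  rcases x with x | v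
  · rfl
  · have : i ≠ K.z := by
      rintro rfl
      exact K.hz hi
    simp [lead, mlead, this]

lemma mlead_out (x : K.Lam) (i : σ) (hi : i ∉ K.mid) : K.mlead x i = 0 := by
  rcases x with x | v
  · obtain ⟨h1, h2, -, -⟩ := (K.mem_G _).1 x.2
    have : i ≠ x.1.2 := by
      rintro rfl
      exact hi h2
    simp [mlead, this, ((K.hO _).1 h1).2 i hi]
  · exact ((K.hO _).1 v.2).2 i hi

lemma lead_not_std (x : K.Lam) : ¬ K.Std (K.lead x) := by
  rcases x with x | v
  · obtain ⟨h1, h2, h3, h4⟩ := (K.mem_G _).1 x.2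
    intro h
    apply h4
    rw [K.hO]
    exact ⟨h, K.mlead_out (Sum.inl x)⟩
  · exact K.hβ1 _ v.2

lemma b2 (x : K.Lam) (m : σ →₀ ℕ) : ¬ K.Std (m + K.lead x) := by
  intro h
  exact K.lead_not_std x (K.le_std le_add_self h)

lemma b1e (τ : σ →₀ ℕ) (hτ : ¬ K.Std τ) :
    ∃ (l : K.Lam) (m : σ →₀ ℕ), (∀ i ∈ K.NM l, m i = 0) ∧ m + K.lead l = τ := by
  by_cases h : K.md τ ∈ K.O
  · refine ⟨Sum.inr ⟨K.md τ, h⟩, τ - (K.md τ + Finsupp.single K.z (K.β (K.md τ))), ?_, ?_⟩
    · intro i hi
      have hi' : i ∈ K.mid := hi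
      simp [K.md_apply, hi']
    · apply tsub_add_cancel_of_le
      intro i
      have hz := K.hz
      have hβ := K.hβ2 τ hτ h
      by_cases e : i = K.z
      · subst e
        simp [K.md_apply, hz]
        exact hβ
      · simp [K.md_apply, e]
        split_ifs <;> simp
  · obtain ⟨v, j, m, hg, hfree, hsum⟩ := K.exists_gen _ (K.md τ) rfl
      (by intro i hi; simp [K.md_apply, hi]) h
    have hle : K.md τ ≤ τ := by
      intro i
      rw [K.md_apply]
      split_ifs <;> simp
    refine ⟨Sum.inl ⟨(v, j), (K.mem_G _).2 hg⟩, m + (τ - K.md τ), ?_, ?_⟩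
    · intro i hi
      obtain ⟨h1, h2⟩ := Finset.mem_filter.1 hi
      simp [hfree i h1 h2, K.md_apply, h1]
    · show m + (τ - K.md τ) + (v + Finsupp.single j 1) = τ
      have : m + (τ - K.md τ) + (v + Finsupp.single j 1) =
        (τ - K.md τ) + (m + (v + Finsupp.single j 1)) := by
        rw [add_comm m (τ - K.md τ), add_assoc]
      rw [this, hsum, tsub_add_cancel_of_le hle]

lemma b3 (l : K.Lam) (m : σ →₀ ℕ) (l' : K.Lam) (m' : σ →₀ ℕ) (hfree : ∀ i ∈ K.NM l', m' i = 0)
    (h : m' + K.lead l' = m + K.lead l) : l' = l ∨ K.lt l' l := by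
  have hle : ∀ i ∈ K.mid, K.mlead l i ≤ m' i + K.mlead l' i := by
    intro i hi
    have := DFunLike.congr_fun h i
    simp only [Finsupp.coe_add, Pi.add_apply] at this
    rw [K.lead_mid _ i hi, K.lead_mid _ i hi] at this
    omega
  rcases l' with x | v
  · have hg := (K.mem_G _).1 x.2
    have hfree' : ∀ i ∈ K.mid, K.p i < K.p x.1.2 → m' i = 0 := fun i h1 h2 =>
      hfree i (Finset.mem_filter.2 ⟨h1, h2⟩)
    rcases K.cmp hg m' (K.mlead l) hfree' hle (K.mlead_type l) with h1 | h1
    · left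
      rcases l with y | w
      · have hg' := (K.mem_G _).1 y.2
        have := K.gen_inj hg' hg h1
        congr 1
        apply Subtype.ext
        exact Prod.ext this.1.symm this.2.symm
      · exfalso
        apply hg.2.2.2
        rw [← h1]
        exact w.2
    · right
      exact h1
  · have hm' : ∀ i ∈ K.mid, m' i = 0 := hfree
    have hle' : ∀ i ∈ K.mid, K.mlead l i ≤ v.1 i := by
      intro i hi
      have := hle i hi
      rw [hm' i hi, zero_add] at this
      exact this
    rcases K.lexlt_of_le hle' (K.mlead_out l) ((K.hO _).1 v.2).2 with h1 | h1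
    · left
      rcases l with y | w
      · exfalso
        have hg' := (K.mem_G _).1 y.2
        apply hg'.2.2.2
        have : y.1.1 + Finsupp.single y.1.2 1 = v.1 := h1
        rw [this]
        exact v.2
      · congr 1
        apply Subtype.ext
        exact h1.symm
    · right
      exact h1

lemma b1u (l : K.Lam) (m : σ →₀ ℕ) (l' : K.Lam) (m' : σ →₀ ℕ) (hf : ∀ i ∈ K.NM l, m i = 0)
    (hf' : ∀ i ∈ K.NM l', m' i = 0) (h : m + K.lead l = m' + K.lead l') : l = l' := by
  rcases K.b3 l' m' l m hf h with h1 | h1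
  · exact h1
  · rcases K.b3 l m l' m' hf' h.symm with h2 | h2
    · exact h2.symm
    · exact absurd (K.lexlt_trans _ _ _ h1 h2) (K.lexlt_irrefl _)

/-- The number of earlier middle variables. -/
def idx (j : σ) : ℕ := (K.mid.filter (fun i => K.p i < K.p j)).card

/-- The rank function of the family. -/
noncomputable def W (s : ℕ) : ℕ := ∑ l : K.Lam, (K.NM l).card.choose s

lemma W_eq (s : ℕ) : K.W s = ∑ x ∈ K.G, (K.idx x.2).choose s + K.O.card * K.mid.card.choose s := by
  unfold W
  rw [Fintype.sum_sum_type]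
  congr 1
  · rw [← Finset.sum_coe_sort K.G]
    rfl
  · simp [NM]

open Classical in
/-- Bounding the sum over generators. -/
lemma sum_gen_le (f : σ → ℕ) :
    ∑ x ∈ K.G, f x.2 ≤
      ∑ v ∈ K.O, ∑ j ∈ K.mid.filter (fun j => ∀ i, v i ≠ 0 → K.p i < K.p j), f j := by
  rw [Finset.sum_sigma']
  have hmem : ∀ x ∈ K.G, (⟨x.1.erase x.2, x.2⟩ : Σ _ : (σ →₀ ℕ), σ) ∈
      K.O.sigma (fun v => K.mid.filter (fun j => ∀ i, v i ≠ 0 → K.p i < K.p j)) := by
    intro x hx
    obtain ⟨h1, h2, h3, h4⟩ := (K.mem_G _).1 hx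
    rw [Finset.mem_sigma, Finset.mem_filter]
    refine ⟨?_, h2, ?_⟩
    · refine K.le_O ?_ h1
      intro i
      simp only [Finsupp.erase_apply]
      split_ifs <;> simp
    · intro i hi
      simp only [Finsupp.erase_apply] at hi
      split_ifs at hi with e
      · exact absurd rfl hi
      · have h5 := h3 i hi
        rcases h5.lt_or_eq with h6 | h6
        · exact h6
        · exfalso
          apply e
          apply K.hp _ h2 h6
          by_contra hc
          exact hi (((K.hO _).1 h1).2 i hc)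
  have hinj : Set.InjOn (fun x : (σ →₀ ℕ) × σ => (⟨x.1.erase x.2, x.2⟩ : Σ _ : (σ →₀ ℕ), σ))
      K.G := by
    rintro ⟨v, j⟩ hx ⟨w, j'⟩ hy h
    obtain ⟨h1, h2, h3, h4⟩ := (K.mem_G _).1 hx
    obtain ⟨h1', h2', h3', h4'⟩ := (K.mem_G _).1 hy
    simp only [Sigma.mk.injEq, heq_eq_eq] at h
    obtain ⟨he, rfl⟩ := h
    have hag : ∀ i, i ≠ j → v i = w i := by
      intro i hi
      have := DFunLike.congr_fun he i
      simpa [Finsupp.erase_apply, hi] using this
    simp only at h4 h4'
    have hj : v j = w j := by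
      rcases lt_trichotomy (v j) (w j) with h | h | h
      · exfalso
        apply h4
        refine K.le_O ?_ h1'
        intro i
        by_cases e : i = j
        · subst e
          simp
          omega
        · simp [e, hag i e]
      · exact h
      · exfalso
        apply h4'
        refine K.le_O ?_ h1
        intro i
        by_cases e : i = j
        · subst e
          simp
          omega
        · simp [e, hag i e]
    have : v = w := by
      ext i
      by_cases e : i = j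
      · rw [e]; exact hj
      · exact hag i e
    rw [this]
  calc ∑ x ∈ K.G, f x.2 = ∑ y ∈ K.G.image (fun x => (⟨x.1.erase x.2, x.2⟩ : Σ _ : (σ →₀ ℕ), σ)),
        f y.2 := by
        rw [Finset.sum_image hinj]
    _ ≤ _ := by
        apply Finset.sum_le_sum_of_subset
        intro y hy
        obtain ⟨x, hx, rfl⟩ := Finset.mem_image.1 hy
        exact hmem x hx

end Cone

end Pool.Agent.Helper33.BW
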