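import Pool.Agent.Helper33.BW.Growth

set_option autoImplicit false
set_option linter.unusedSectionVars false

namespace Pool.Agent.Helper33.BW

open Finset
open scoped Pointwise

section
variable {σ : Type} [Fintype σ] [DecidableEq σ]

/-- Weighted degree of a monomial. -/
def bb (a : σ → ℕ) (m : σ →₀ ℕ) : ℕ := ∑ i, m i * a i

/-- Number of factors of a monomial. -/
def dg (m : σ →₀ ℕ) : ℕ := ∑ i, m i

lemma bb_add (a : σ → ℕ) (m m' : σ →₀ ℕ) : bb a (m + m') = bb a m + bb a m' := by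
  simp [bb, add_mul, sum_add_distrib]

lemma dg_add (m m' : σ →₀ ℕ) : dg (m + m') = dg m + dg m' := by
  simp [dg, sum_add_distrib]

lemma bb_single (a : σ → ℕ) (i : σ) (c : ℕ) : bb a (Finsupp.single i c) = c * a i := by
  unfold bb
  rw [Finset.sum_eq_single i]
  · simp
  · intro b _ hb
    simp [hb.symm]
  · intro h
    exact absurd (mem_univ _) h

lemma dg_single (i : σ) (c : ℕ) : dg (Finsupp.single i c) = c := by
  unfold dg
  rw [Finset.sum_eq_single i]
  · simp
  · intro b _ hb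
    simp [hb.symm]
  · intro h
    exact absurd (mem_univ _) h

lemma dg_eq_zero {m : σ →₀ ℕ} (h : dg m = 0) : m = 0 := by
  unfold dg at h
  ext i
  exact (Finset.sum_eq_zero_iff.1 h) i (mem_univ i)

/-- Iterated sumsets of natural numbers. -/
def BB (a : σ → ℕ) : ℕ → Finset ℕ
  | 0 => {0}
  | N + 1 => BB a N + univ.image a

lemma exists_peel {m : σ →₀ ℕ} (h : m ≠ 0) : ∃ i m', m = m' + Finsupp.single i 1 := by
  obtain ⟨i, hi⟩ : ∃ i, m i ≠ 0 := by
    by_contra hc
    push Not at hc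
    exact h (Finsupp.ext hc)
  refine ⟨i, m - Finsupp.single i 1, ?_⟩
  rw [tsub_add_cancel_of_le]
  rw [Finsupp.single_le_iff]
  omega

lemma mem_BB (a : σ → ℕ) (N : ℕ) : ∀ b, b ∈ BB a N ↔ ∃ m : σ →₀ ℕ, dg m = N ∧ bb a m = b := by
  induction N with
  | zero =>
    intro b
    rw [BB, mem_singleton]
    constructor
    · rintro rfl
      exact ⟨0, by simp [dg], by simp [bb]⟩
    · rintro ⟨m, h1, h2⟩
      rw [dg_eq_zero h1] at h2
      rw [← h2]
      simp [bb]
  | succ N ih =>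
    intro b
    rw [BB, mem_add]
    constructor
    · rintro ⟨y, hy, z, hz, rfl⟩
      obtain ⟨m, h1, h2⟩ := (ih y).1 hy
      obtain ⟨i, _, rfl⟩ := mem_image.1 hz
      refine ⟨m + Finsupp.single i 1, ?_, ?_⟩
      · rw [dg_add, h1, dg_single]
      · rw [bb_add, h2, bb_single, one_mul]
    · rintro ⟨m, h1, h2⟩
      have hm : m ≠ 0 := by
        rintro rfl
        simp [dg] at h1
      obtain ⟨i, m', rfl⟩ := exists_peel hm
      rw [dg_add, dg_single] at h1
      rw [bb_add, bb_single, one_mul] at h2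
      exact ⟨bb a m', (ih _).2 ⟨m', by omega, rfl⟩, a i, mem_image_of_mem _ (mem_univ i), h2⟩

lemma BB_subset (a : σ → ℕ) (w : ℕ) (ha : ∀ i, a i ≤ w) (N : ℕ) :
    BB a N ⊆ range (N * w + 1) := by
  intro b hb
  obtain ⟨m, h1, rfl⟩ := (mem_BB a N b).1 hb
  rw [mem_range]
  have : bb a m ≤ N * w := by
    rw [← h1]
    unfold bb dg
    rw [sum_mul]
    exact Finset.sum_le_sum fun i _ => Nat.mul_le_mul_left _ (ha i)
  omega

lemma image_BB (a : σ → ℕ) (w : ℕ) (N : ℕ) :
    (BB a N).image (fun b : ℕ => (b : ZMod w)) =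
      CC (univ.image (fun i => ((a i : ℕ) : ZMod w))) N := by
  induction N with
  | zero => simp [BB, CC]
  | succ N ih =>
    rw [BB, CC, ← ih]
    ext g
    simp only [mem_image, mem_add, mem_univ, true_and]
    constructor
    · rintro ⟨b, ⟨y, hy, z, ⟨i, rfl⟩, rfl⟩, rfl⟩
      exact ⟨(y : ZMod w), ⟨y, hy, rfl⟩, (a i : ZMod w), ⟨i, rfl⟩, by push_cast; rfl⟩
    · rintro ⟨y, ⟨b, hb, rfl⟩, z, ⟨i, rfl⟩, rfl⟩
      exact ⟨b + a i, ⟨b, hb, a i, ⟨i, rfl⟩, rfl⟩, by push_cast; rfl⟩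

lemma key_card (B : Finset ℕ) (w : ℕ) (hw : 0 < w) :
    B.card + (B.image (fun b : ℕ => (b : ZMod w))).card ≤ (B ∪ B.image (· + w)).card := by
  have h1 : (B ∪ B.image (· + w)).card = B.card + (B.image (· + w) \ B).card := by
    rw [← card_union_of_disjoint disjoint_sdiff, union_sdiff_self_eq_union]
  rw [h1]
  gcongr
  have h2 : B.image (fun b : ℕ => (b : ZMod w)) ⊆
      (B.image (· + w) \ B).image (fun b : ℕ => (b : ZMod w)) := by
    intro g hg
    obtain ⟨b, hb, rfl⟩ := mem_image.1 hg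
    have hne : (B.filter (fun c : ℕ => (c : ZMod w) = (b : ZMod w))).Nonempty :=
      ⟨b, mem_filter.2 ⟨hb, rfl⟩⟩
    obtain ⟨c, hc, hmax⟩ := exists_max_image _ (fun c : ℕ => c) hne
    obtain ⟨hcB, hcb⟩ := mem_filter.1 hc
    rw [mem_image]
    refine ⟨c + w, ?_, ?_⟩
    · rw [mem_sdiff]
      refine ⟨mem_image_of_mem _ hcB, ?_⟩
      intro h
      have h3 := hmax (c + w) (mem_filter.2 ⟨h, by push_cast; simp [hcb]⟩)
      omega
    · push_cast
      simp [hcb]
  exact (card_le_card h2).trans card_image_le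

lemma layer (a : σ → ℕ) (w : ℕ) (hw : 0 < w) (i₀ i₁ : σ) (h0 : a i₀ = 0) (h1 : a i₁ = w)
    (O : Finset (σ →₀ ℕ))
    (hO1 : ∀ v ∈ O, ∀ v' ∈ O, dg v = dg v' → bb a v = bb a v' → v = v')
    (hO2 : ∀ v ∈ O, ∀ m, dg m + 1 = dg v → bb a m ≠ bb a v)
    (hO3 : ∀ v ∈ O, ∀ m, dg m + 1 = dg v → bb a m + w ≠ bb a v) (N : ℕ) :
    (O.filter (fun v => dg v = N + 1)).card + ((BB a N).card +
      (CC (univ.image (fun i => ((a i : ℕ) : ZMod w))) N).card) ≤ (BB a (N + 1)).card := by
  have hk := key_card (BB a N) w hw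
  rw [image_BB] at hk
  have hsub : BB a N ∪ (BB a N).image (· + w) ⊆ BB a (N + 1) := by
    intro b hb
    rw [BB, mem_add]
    rcases mem_union.1 hb with hb | hb
    · exact ⟨b, hb, 0, mem_image.2 ⟨i₀, mem_univ _, h0⟩, add_zero b⟩
    · obtain ⟨c, hc, rfl⟩ := mem_image.1 hb
      exact ⟨c, hc, w, mem_image.2 ⟨i₁, mem_univ _, h1⟩, rfl⟩
  have hinj : Set.InjOn (bb a) (O.filter (fun v => dg v = N + 1)) := by
    intro v hv v' hv' h
    obtain ⟨hv1, hv2⟩ := mem_filter.1 hv
    obtain ⟨hv1', hv2'⟩ := mem_filter.1 hv'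
    exact hO1 v hv1 v' hv1' (by rw [hv2, hv2']) h
  have himg : (O.filter (fun v => dg v = N + 1)).image (bb a) ⊆
      BB a (N + 1) \ (BB a N ∪ (BB a N).image (· + w)) := by
    intro b hb
    obtain ⟨v, hv, rfl⟩ := mem_image.1 hb
    obtain ⟨hv1, hv2⟩ := mem_filter.1 hv
    rw [mem_sdiff, mem_union, not_or]
    refine ⟨(mem_BB a _ _).2 ⟨v, hv2, rfl⟩, ?_, ?_⟩
    · intro h
      obtain ⟨m, hm1, hm2⟩ := (mem_BB a _ _).1 h
      exact hO2 v hv1 m (by omega) hm2
    · intro h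
      obtain ⟨c, hc, hcv⟩ := mem_image.1 h
      obtain ⟨m, hm1, hm2⟩ := (mem_BB a _ _).1 hc
      apply hO3 v hv1 m (by omega)
      rw [hm2]
      exact hcv
  have h2 := card_le_card himg
  rw [card_image_of_injOn hinj, card_sdiff_of_subset hsub] at h2
  have h3 := card_le_card hsub
  omega

/-- The counting bound. -/
theorem count_bound (a : σ → ℕ) (w : ℕ) (hw : 0 < w) (i₀ i₁ : σ) (h0 : a i₀ = 0) (h1 : a i₁ = w)
    (ha : ∀ i, a i ≤ w) (O : Finset (σ →₀ ℕ))
    (hO1 : ∀ v ∈ O, ∀ v' ∈ O, dg v = dg v' → bb a v = bb a v' → v = v')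
    (hO2 : ∀ v ∈ O, ∀ m, dg m + 1 = dg v → bb a m ≠ bb a v)
    (hO3 : ∀ v ∈ O, ∀ m, dg m + 1 = dg v → bb a m + w ≠ bb a v) :
    ∃ M, O.card ≤ 1 + ∑ m ∈ range M,
      (w - (CC (univ.image (fun i => ((a i : ℕ) : ZMod w))) m).card) := by
  have : NeZero w := ⟨hw.ne'⟩
  set A : Finset (ZMod w) := univ.image (fun i => ((a i : ℕ) : ZMod w)) with hA
  have hstep : ∀ M, ∑ N ∈ range (M + 1), (O.filter (fun v => dg v = N)).card +
      ∑ m ∈ range M, (CC A m).card ≤ (BB a M).card := by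
    intro M
    induction M with
    | zero =>
      simp only [zero_add, range_one, sum_singleton, range_zero, sum_empty, add_zero]
      have : (O.filter (fun v => dg v = 0)).card ≤ 1 := by
        rw [card_le_one]
        intro v hv v' hv'
        rw [dg_eq_zero (mem_filter.1 hv).2, dg_eq_zero (mem_filter.1 hv').2]
      simpa [BB] using this
    | succ M ih =>
      rw [sum_range_succ, sum_range_succ (fun m => (CC A m).card)]
      have := layer a w hw i₀ i₁ h0 h1 O hO1 hO2 hO3 M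
      rw [← hA] at this
      omega
  set M := O.sup dg with hM
  refine ⟨M, ?_⟩
  have h2 := hstep M
  have h3 : O.card = ∑ N ∈ range (M + 1), (O.filter (fun v => dg v = N)).card := by
    apply card_eq_sum_card_fiberwise
    intro v hv
    have : dg v ≤ M := le_sup (f := dg) hv
    simp only [coe_range, Set.mem_Iio]
    omega
  have h4 := card_le_card (BB_subset a w ha M)
  rw [card_range] at h4
  have h5 : ∑ m ∈ range M, (w - (CC A m).card) + ∑ m ∈ range M, (CC A m).card = M * w := by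
    rw [← sum_add_distrib]
    have : ∀ m ∈ range M, (w - (CC A m).card) + (CC A m).card = w := by
      intro m _
      have h6 : (CC A m).card ≤ w := by
        have := card_le_univ (CC A m)
        rwa [ZMod.card] at this
      omega
    rw [sum_congr rfl this, sum_const, card_range, smul_eq_mul]
  omega

end

end Pool.Agent.Helper33.BW
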