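import Pool.Agent.Helper33.BW.Chain
import Pool.Agent.Helper33.BW.Cone

set_option autoImplicit false
set_option linter.unusedSectionVars false

namespace Pool.Agent.Helper33.BW

open Finset

lemma sum_mul_choose (n s : ℕ) :
    ∑ a ∈ range n, a * a.choose s + (n + 1).choose (s + 2) = n * n.choose (s + 1) := by
  induction n with
  | zero => simp [Nat.choose_eq_zero_of_lt (show 1 < s + 2 by omega)]
  | succ n ih =>
    have h1 : (n + 1 + 1).choose (s + 2) = (n + 1).choose (s + 1) + (n + 1).choose (s + 2) :=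
      Nat.choose_succ_succ _ _
    have h2 : (n + 1).choose (s + 1) = n.choose s + n.choose (s + 1) := Nat.choose_succ_succ _ _
    rw [sum_range_succ, h1, h2]
    nlinarith [ih]

lemma sum_choose_eq (n s : ℕ) : ∑ a ∈ range n, a.choose s = n.choose (s + 1) := by
  induction n with
  | zero => simp
  | succ n ih =>
    have h2 : (n + 1).choose (s + 1) = n.choose s + n.choose (s + 1) := Nat.choose_succ_succ _ _
    rw [sum_range_succ, ih, h2]
    omega

lemma base_identity (n s : ℕ) :
    n.choose (s + 1) + ∑ a ∈ range n, a * a.choose s + (n + 1) * n.choose s =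
      (s + 1) * (n + 2).choose (s + 2) := by
  have h1 := sum_mul_choose n s
  have h2 : (n + 2).choose (s + 2) = (n + 1).choose (s + 1) + (n + 1).choose (s + 2) :=
    Nat.choose_succ_succ _ _
  have h3 : (n + 1).choose (s + 1) = n.choose s + n.choose (s + 1) := Nat.choose_succ_succ _ _
  have h4 : (n + 2) * (n + 1).choose (s + 1) = (n + 2).choose (s + 2) * (s + 2) :=
    Nat.add_one_mul_choose_eq (n + 1) (s + 1)
  nlinarith

/-- Main numerical step for higher syzygies. -/
lemma numer_high (G w r s : ℕ) (hG : 1 ≤ G) (hGw : G ≤ w) (e : ℕ) (hr : r = G + e)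
    (hr2 : (r + 1) * G ≤ w * (w + 1)) (hs : 1 ≤ s) :
    (s + 1) * (G + 1).choose (s + 2) + e * G.choose (s + 1) ≤ (s + 1) * (w + 1).choose (s + 2) := by
  -- sum over j in (G, w]
  have hsum : (w + 1).choose (s + 2) = (G + 1).choose (s + 2) +
      ∑ j ∈ Ico (G + 1) (w + 1), j.choose (s + 1) := by
    rw [← sum_choose_eq (w + 1) (s + 1), ← sum_choose_eq (G + 1) (s + 1),
      Finset.sum_range_add_sum_Ico _ (by omega)]
  have hj : ∀ j ∈ Ico (G + 1) (w + 1), j * G.choose (s + 1) ≤ G * j.choose (s + 1) := by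
    intro j hj
    rw [mem_Ico] at hj
    obtain ⟨j', rfl⟩ : ∃ j', j = j' + 1 := ⟨j - 1, by omega⟩
    obtain ⟨G', rfl⟩ : ∃ G', G = G' + 1 := ⟨G - 1, by omega⟩
    have h1 : (j' + 1) * j'.choose s = (j' + 1).choose (s + 1) * (s + 1) :=
      Nat.add_one_mul_choose_eq j' s
    have h2 : (G' + 1) * G'.choose s = (G' + 1).choose (s + 1) * (s + 1) :=
      Nat.add_one_mul_choose_eq G' s
    have h3 : G'.choose s ≤ j'.choose s := Nat.choose_le_choose s (by omega)
    have h4 : (j' + 1) * ((G' + 1).choose (s + 1) * (s + 1)) ≤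
        (G' + 1) * ((j' + 1).choose (s + 1) * (s + 1)) := by
      rw [← h1, ← h2]
      calc (j' + 1) * ((G' + 1) * G'.choose s) = (G' + 1) * ((j' + 1) * G'.choose s) := by ring
        _ ≤ _ := by gcongr
    have h5 : ((j' + 1) * (G' + 1).choose (s + 1)) * (s + 1) ≤
        ((G' + 1) * (j' + 1).choose (s + 1)) * (s + 1) := by
      calc _ = (j' + 1) * ((G' + 1).choose (s + 1) * (s + 1)) := by ring
        _ ≤ _ := h4
        _ = _ := by ring
    exact Nat.le_of_mul_le_mul_right h5 (Nat.succ_pos s)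
  have hsum2 : (∑ j ∈ Ico (G + 1) (w + 1), j) * G.choose (s + 1) ≤
      G * ∑ j ∈ Ico (G + 1) (w + 1), j.choose (s + 1) := by
    rw [Finset.sum_mul, Finset.mul_sum]
    exact Finset.sum_le_sum hj
  have hgauss : 2 * ∑ j ∈ Ico (G + 1) (w + 1), j + G * (G + 1) = w * (w + 1) := by
    have h1 := Finset.sum_range_id_mul_two (w + 1)
    have h2 := Finset.sum_range_id_mul_two (G + 1)
    have h3 := Finset.sum_range_add_sum_Ico (fun j => j) (show G + 1 ≤ w + 1 by omega)
    simp only [Nat.add_sub_cancel] at h1 h2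
    nlinarith
  have he : e * G ≤ 2 * ∑ j ∈ Ico (G + 1) (w + 1), j := by
    subst hr
    nlinarith
  set Sg := ∑ j ∈ Ico (G + 1) (w + 1), j.choose (s + 1) with hSg
  set T := ∑ j ∈ Ico (G + 1) (w + 1), j with hT
  have h6 : G * (e * G.choose (s + 1)) ≤ G * (2 * Sg) := by
    calc G * (e * G.choose (s + 1)) = (e * G) * G.choose (s + 1) := by ring
      _ ≤ (2 * T) * G.choose (s + 1) := by gcongr
      _ = 2 * (T * G.choose (s + 1)) := by ring
      _ ≤ 2 * (G * Sg) := by gcongr
      _ = G * (2 * Sg) := by ring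
  have h7 : e * G.choose (s + 1) ≤ 2 * Sg := Nat.le_of_mul_le_mul_left h6 (by omega)
  rw [hsum]
  nlinarith

namespace Cone

variable {σ : Type} [DecidableEq σ] (K : Cone σ)

open Classical in
/-- The generating sum attached to an element of `O`. -/
noncomputable def F (s : ℕ) (v : σ →₀ ℕ) : ℕ :=
  ∑ j ∈ K.mid.filter (fun j => ∀ i, v i ≠ 0 → K.p i < K.p j), (K.idx j).choose s

lemma W_le (s : ℕ) : K.W s ≤ ∑ v ∈ K.O, K.F s v + K.O.card * K.mid.card.choose s := by
  rw [W_eq]
  gcongr
  exact K.sum_gen_le (fun j => (K.idx j).choose s)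

lemma sum_mid (g : ℕ → ℕ) : ∑ j ∈ K.mid, g (K.idx j) = ∑ i ∈ range K.mid.card, g i :=
  sum_idx K.p g K.mid K.hp

lemma F_le (s : ℕ) (v : σ →₀ ℕ) : K.F s v ≤ K.mid.card.choose (s + 1) := by
  classical
  rw [← sum_choose_eq, ← K.sum_mid (fun i => i.choose s)]
  exact Finset.sum_le_sum_of_subset (Finset.filter_subset _ _)

lemma F_single (s : ℕ) : ∑ i ∈ K.mid, K.F s (Finsupp.single i 1) =
    ∑ a ∈ range K.mid.card, a * a.choose s := by
  classical
  rw [← K.sum_mid (fun a => a * a.choose s)]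
  have h1 : ∀ i ∈ K.mid, K.F s (Finsupp.single i 1) =
      ∑ j ∈ K.mid, if K.p i < K.p j then (K.idx j).choose s else 0 := by
    intro i hi
    unfold F
    rw [← Finset.sum_filter]
    apply Finset.sum_congr _ (fun _ _ => rfl)
    apply Finset.filter_congr
    intro j hj
    constructor
    · intro h
      exact h i (by simp)
    · intro h i' hi'
      have : i' = i := by
        by_contra hc
        apply hi'
        simp [hc]
      rw [this]; exact h
  rw [Finset.sum_congr rfl h1, Finset.sum_comm]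
  apply Finset.sum_congr rfl
  intro j hj
  rw [← Finset.sum_filter, Finset.sum_const, smul_eq_mul]
  rfl

/-- Bound for the higher ranks. -/
lemma W_high (s : ℕ) (e : ℕ) (he : K.O.card = K.mid.card + 1 + e)
    (hsingle : ∀ i ∈ K.mid, Finsupp.single i 1 ∈ K.O) :
    K.W s ≤ (s + 1) * (K.mid.card + 2).choose (s + 2) + e * (K.mid.card + 1).choose (s + 1) := by
  classical
  have h0 := K.W_le s
  set T : Finset (σ →₀ ℕ) := insert 0 (K.mid.image (fun i => Finsupp.single i 1)) with hT
  have hinj : Set.InjOn (fun i => (Finsupp.single i 1 : σ →₀ ℕ)) K.mid := by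
    intro a _ b _ h
    exact (Finsupp.single_left_inj (by norm_num)).1 h
  have h0mem : (0 : σ →₀ ℕ) ∉ K.mid.image (fun i => Finsupp.single i 1) := by
    intro h
    obtain ⟨i, _, hi⟩ := Finset.mem_image.1 h
    have := DFunLike.congr_fun hi i
    simp at this
  have hTcard : T.card = K.mid.card + 1 := by
    rw [hT, Finset.card_insert_of_notMem h0mem, Finset.card_image_of_injOn hinj]
  have hTO : T ⊆ K.O := by
    intro v hv
    rw [hT, Finset.mem_insert, Finset.mem_image] at hv
    rcases hv with rfl | ⟨i, hi, rfl⟩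
    · exact K.zero_mem
    · exact hsingle i hi
  have hsplit : ∑ v ∈ K.O, K.F s v = ∑ v ∈ K.O \ T, K.F s v + ∑ v ∈ T, K.F s v :=
    (Finset.sum_sdiff hTO).symm
  have hcard : (K.O \ T).card = e := by
    rw [Finset.card_sdiff_of_subset hTO, hTcard, he]
    omega
  have h1 : ∑ v ∈ K.O \ T, K.F s v ≤ e * K.mid.card.choose (s + 1) := by
    calc ∑ v ∈ K.O \ T, K.F s v ≤ ∑ v ∈ K.O \ T, K.mid.card.choose (s + 1) :=
          Finset.sum_le_sum fun v _ => K.F_le s v
      _ = _ := by rw [Finset.sum_const, hcard, smul_eq_mul]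
  have h2 : ∑ v ∈ T, K.F s v ≤ K.mid.card.choose (s + 1) +
      ∑ a ∈ range K.mid.card, a * a.choose s := by
    rw [hT, Finset.sum_insert h0mem, Finset.sum_image hinj, K.F_single]
    gcongr
    exact K.F_le s 0
  have h3 := base_identity K.mid.card s
  have h4 : (K.mid.card + 1).choose (s + 1) = K.mid.card.choose s + K.mid.card.choose (s + 1) :=
    Nat.choose_succ_succ _ _
  rw [h4, ← h3]
  rw [hsplit, he] at h0
  nlinarith

/-- Bound for the number of generators, averaged over an order and its reverse. -/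
lemma W_zero (K' : Cone σ) (hO : K'.O = K.O) (hmid : K'.mid = K.mid)
    (hrev : ∀ i ∈ K.mid, ∀ j ∈ K.mid, K'.p i < K'.p j → K.p j < K.p i) :
    K.W 0 + K'.W 0 ≤ (K.mid.card + 1) * (K.O.card + 1) := by
  classical
  have h0 := K.W_le 0
  have h0' := K'.W_le 0
  rw [hO, hmid] at h0'
  simp only [Nat.choose_zero_right, mul_one] at h0 h0'
  have hF : ∀ v ∈ K.O.erase 0, K.F 0 v + K'.F 0 v + 1 ≤ K.mid.card := by
    intro v hv
    obtain ⟨hv0, hvO⟩ := Finset.mem_erase.1 hv
    obtain ⟨i, hi⟩ : ∃ i, v i ≠ 0 := by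
      by_contra hc
      push Not at hc
      exact hv0 (Finsupp.ext hc)
    have him : i ∈ K.mid := by
      by_contra h
      exact hi (((K.hO v).1 hvO).2 i h)
    unfold F
    simp only [Nat.choose_zero_right, Finset.sum_const, smul_eq_mul, mul_one]
    rw [hmid, ← Finset.card_union_of_disjoint]
    · have : i ∉ ((K.mid.filter (fun j => ∀ i, v i ≠ 0 → K.p i < K.p j)) ∪
          (K.mid.filter (fun j => ∀ i, v i ≠ 0 → K'.p i < K'.p j))) := by
        intro h
        rcases Finset.mem_union.1 h with h | h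
        · exact lt_irrefl _ ((Finset.mem_filter.1 h).2 i hi)
        · exact lt_irrefl _ ((Finset.mem_filter.1 h).2 i hi)
      rw [← Finset.card_insert_of_notMem this]
      apply Finset.card_le_card
      intro j hj
      rcases Finset.mem_insert.1 hj with rfl | hj
      · exact him
      · rcases Finset.mem_union.1 hj with h | h
        · exact (Finset.mem_filter.1 h).1
        · exact (Finset.mem_filter.1 h).1
    · rw [Finset.disjoint_left]
      intro j hj hj'
      obtain ⟨h1, h2⟩ := Finset.mem_filter.1 hj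
      obtain ⟨_, h3⟩ := Finset.mem_filter.1 hj'
      have h4 := h2 i hi
      have h5 := hrev i him j h1 (h3 i hi)
      omega
  have hF0 : K.F 0 0 + K'.F 0 0 ≤ 2 * K.mid.card := by
    have h1 := K.F_le 0 0
    have h2 := K'.F_le 0 0
    rw [hmid] at h2
    simp only [zero_add, Nat.choose_one_right] at h1 h2
    omega
  have hr : K.O.card = (K.O.erase 0).card + 1 := by
    rw [Finset.card_erase_of_mem K.zero_mem]
    have := Finset.card_pos.2 ⟨0, K.zero_mem⟩
    omega
  have h5 : ∑ v ∈ K.O, K.F 0 v + ∑ v ∈ K.O, K'.F 0 v =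
      (K.F 0 0 + K'.F 0 0) + ∑ v ∈ K.O.erase 0, (K.F 0 v + K'.F 0 v) := by
    rw [← Finset.sum_add_distrib, ← Finset.add_sum_erase K.O _ K.zero_mem]
  have h6 : ∑ v ∈ K.O.erase 0, (K.F 0 v + K'.F 0 v) + (K.O.erase 0).card ≤
      (K.O.erase 0).card * K.mid.card := by
    have : ∑ v ∈ K.O.erase 0, (K.F 0 v + K'.F 0 v + 1) ≤ ∑ v ∈ K.O.erase 0, K.mid.card :=
      Finset.sum_le_sum hF
    rw [Finset.sum_add_distrib] at this
    simpa using this
  rw [hr] at h0 h0' ⊢
  nlinarith

end Cone

end Pool.Agent.Helper33.BW
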