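import Pool.Agent.Helper33.BW.Semi
import Pool.Agent.Helper33.BW.Numer

set_option autoImplicit false
set_option linter.unusedSectionVars false

namespace Pool.Agent.Helper33.BW

open Finset MvPolynomial

section
variable {n : ℕ} (s : Fin (n + 1) → ℕ) {k : Type} [Field k]

/-- The defining map of the semigroup ring. -/
noncomputable def phi : MvPolynomial (Fin (n + 1)) k →ₐ[k] Polynomial k :=
  MvPolynomial.aeval (fun i : Fin (n + 1) => (Polynomial.X : Polynomial k) ^ s i)

lemma phi_monomial (m : Fin (n + 1) →₀ ℕ) (c : k) :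
    phi s (monomial m c) = Polynomial.monomial (bb s m) c := by
  unfold phi
  rw [MvPolynomial.aeval_monomial, ← Polynomial.C_mul_X_pow_eq_monomial]
  congr 1
  unfold bb
  rw [Finsupp.prod_fintype]
  · rw [← Finset.prod_pow_eq_pow_sum]
    apply Finset.prod_congr rfl
    intro i _
    rw [← pow_mul, mul_comm]
  · intro i
    simp

lemma phi_coeff (p : MvPolynomial (Fin (n + 1)) k) (q : ℕ) :
    (phi s p).coeff q = ∑ m ∈ p.support, if bb s m = q then p.coeff m else 0 := by
  conv_lhs => rw [p.as_sum]
  rw [map_sum, Polynomial.finsetSum_coeff]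
  apply Finset.sum_congr rfl
  intro m _
  rw [phi_monomial, Polynomial.coeff_monomial]

/-- The ideal as a submodule of the free module of rank one. -/
noncomputable def NN : Submodule (MvPolynomial (Fin (n + 1)) k)
    (Unit → MvPolynomial (Fin (n + 1)) k) :=
  Submodule.comap (LinearMap.proj ()) (RingHom.ker (phi (k := k) s))

lemma mem_NN (v : Unit → MvPolynomial (Fin (n + 1)) k) : v ∈ NN s ↔ phi s (v ()) = 0 := by
  unfold NN
  rw [Submodule.mem_comap]
  exact RingHom.mem_ker

/-- The relation on monomials. -/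
def RR (a b : Unit × (Fin (n + 1) →₀ ℕ)) : Prop := bb s a.2 = bb s b.2 ∧ kap b.2 < kap a.2

lemma RR_wf (hs : ∀ i, 0 < s i) : WellFounded (RR s) := by
  classical
  have h : WellFounded (InvImage (· < ·) (fun a : Unit × (Fin (n + 1) →₀ ℕ) =>
      ((fib_finite s hs (bb s a.2)).toFinset.filter (fun m => kap a.2 < kap m)).card)) :=
    InvImage.wf _ wellFounded_lt
  refine Subrelation.wf ?_ h
  rintro ⟨_, a⟩ ⟨_, b⟩ ⟨h1, h2⟩
  show ((fib_finite s hs (bb s a)).toFinset.filter (fun m => kap a < kap m)).card <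
    ((fib_finite s hs (bb s b)).toFinset.filter (fun m => kap b < kap m)).card
  simp only at h1 h2
  apply Finset.card_lt_card
  rw [Finset.ssubset_iff_of_subset]
  · refine ⟨a, ?_, ?_⟩
    · simp [h1, h2]
    · simp
  · intro m hm
    simp only [Finset.mem_filter, Set.Finite.mem_toFinset, Set.mem_ofPred_eq] at hm ⊢
    exact ⟨hm.1.trans h1, h2.trans hm.2⟩

/-- The first stage. -/
noncomputable def stage0 (hs : ∀ i, 0 < s i) (hn : 0 < n) (p : Fin (n + 1) → ℕ)
    (hp : Function.Injective p) : Stage Unit (NN (k := k) s) where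
  R := RR s
  Rtrans := by
    rintro a b c ⟨h1, h2⟩ ⟨h3, h4⟩
    exact ⟨h1.trans h3, h4.trans h2⟩
  Rwf := RR_wf s hs
  Rmono := by
    rintro m a b ⟨h1, h2⟩
    refine ⟨?_, ?_⟩
    · unfold sh
      simp only [bb_add, h1]
    · unfold sh
      simp only
      rw [kap_add_lt]
      exact h2
  Std := fun a => IsStd s a.2
  s1 := by
    intro v hv hsupp
    rw [mem_NN] at hv
    funext u
    show v () = 0
    rw [MvPolynomial.eq_zero_iff]
    intro m
    by_contra hm
    have h1 : (phi s (v ())).coeff (bb s m) = 0 := by rw [hv]; simp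
    rw [phi_coeff, Finset.sum_eq_single m] at h1
    · rw [if_pos rfl] at h1
      exact hm h1
    · intro b hb hbm
      rw [if_neg]
      intro e
      apply hbm
      have h2 : IsStd s b := hsupp ((), b) (by
        unfold cf
        exact MvPolynomial.mem_support_iff.1 hb)
      have h3 : IsStd s m := hsupp ((), m) hm
      exact std_unique s h2 h3 e
    · intro h
      exact absurd (MvPolynomial.mem_support_iff.2 hm) h
  s2 := by
    rintro ⟨u, m⟩ hm
    obtain ⟨m', h1, h2, h3⟩ := exists_std s hs m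
    have hne : kap m < kap m' := by
      refine lt_of_le_of_ne h3 ?_
      intro e
      apply hm
      rw [kap_inj e]
      exact h1
    refine ⟨tm ((), m) - tm ((), m'), ?_, ?_⟩
    · rw [mem_NN]
      simp [tm, phi_monomial, h2]
    · have e : (tm ((), m) : Unit → MvPolynomial (Fin (n + 1)) k) - tm ((), m') - tm (u, m) =
        - tm ((), m') := by
        rw [show u = () from rfl]
        abel
      rw [e]
      apply SuppIn.neg
      apply SuppIn.tm
      exact ⟨h1, h2, hne⟩
  L := (coneOf s hs hn p hp).Lam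
  fin := inferInstance
  lead := fun l => ((), (coneOf s hs hn p hp).lead l)
  NM := (coneOf s hs hn p hp).NM
  lt := (coneOf s hs hn p hp).lt
  ltTrans := fun a b c h h' => Cone.lexlt_trans _ _ _ _ h' h
  ltwf := (coneOf s hs hn p hp).lt_wf
  b1e := by
    rintro ⟨u, m⟩ hm
    obtain ⟨l, m', h1, h2⟩ := (coneOf s hs hn p hp).b1e m hm
    refine ⟨l, m', h1, ?_⟩
    unfold sh
    simp only [h2]
  b1u := by
    intro l m l' m' h1 h2 h3
    apply (coneOf s hs hn p hp).b1u l m l' m' h1 h2
    exact congrArg Prod.snd h3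
  b2 := fun l m => (coneOf s hs hn p hp).b2 l m
  b3 := by
    intro l m l' m' h1 h2
    exact (coneOf s hs hn p hp).b3 l m l' m' h1 (congrArg Prod.snd h2)

lemma isStage0 (hs : ∀ i, 0 < s i) (hn : 0 < n) (p : Fin (n + 1) → ℕ)
    (hp : Function.Injective p) : IsStage Unit (NN (k := k) s) (coneOf s hs hn p hp).W :=
  ⟨stage0 s hs hn p hp, fun _ => rfl⟩

/-- Existence of the family with good ranks. -/
lemma exists_good (hmono : StrictMono s) (hs : ∀ i, 0 < s i) (hn : 0 < n)
    (hmin : ∀ i : Fin (n + 1), s i ∉ AddSubmonoid.closure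
        (Set.range (fun j : {j : Fin (n + 1) // j ≠ i} => s j.1))) :
    ∃ W : ℕ → ℕ, IsStage Unit (NN (k := k) s) W ∧
      ∀ t, W t ≤ (t + 1) * (s (Fin.last n) - s 0 + 1).choose (t + 2) := by
  set w := s (Fin.last n) - s 0 with hw
  let p₁ : Fin (n + 1) → ℕ := fun i => i.val
  let p₂ : Fin (n + 1) → ℕ := fun i => n - i.val
  have hp₁ : Function.Injective p₁ := Fin.val_injective
  have hp₂ : Function.Injective p₂ := by
    intro i j h
    have h' : n - i.val = n - j.val := h
    have := i.isLt
    have := j.isLt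
    apply Fin.ext
    omega
  set K₁ := coneOf s hs hn p₁ hp₁ with hK₁
  set K₂ := coneOf s hs hn p₂ hp₂ with hK₂
  set r := (O_finite s hs).toFinset.card with hr
  have hmid : (midF n).card = n - 1 := card_midF hn
  have hO₁ : K₁.O.card = r := rfl
  have hO₂ : K₂.O.card = r := rfl
  have hbound : (r + 1) * n ≤ w * (w + 1) := card_O_bound s hmono (hs 0) hn hs
  have hnw : n ≤ w := by
    have h1 : ∀ i : Fin (n + 1), s 0 + i.val ≤ s i := by
      intro i
      obtain ⟨i, hi⟩ := i
      induction i with
      | zero => simp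
      | succ i ih =>
        have h2 := ih (by omega)
        have h3 : s ⟨i, by omega⟩ < s ⟨i + 1, hi⟩ := hmono (by simp [Fin.lt_def])
        simp only at h2 ⊢
        omega
    have h2 := h1 (Fin.last n)
    simp only [Fin.val_last] at h2
    omega
  have hsing : ∀ i ∈ midF n, Finsupp.single i 1 ∈ (O_finite s hs).toFinset := by
    intro i hi
    rw [mem_O s hs]
    refine ⟨single_std s hmin hs i, ?_⟩
    intro j hj
    have : j ≠ i := by
      rintro rfl
      exact hj hi
    simp [this]
  have hrn : n ≤ r := by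
    have h0mem : (0 : Fin (n + 1) →₀ ℕ) ∉ (midF n).image (fun i => Finsupp.single i 1) := by
      intro h
      obtain ⟨i, _, hi⟩ := Finset.mem_image.1 h
      have := DFunLike.congr_fun hi i
      simp at this
    have hinj : Set.InjOn (fun i => (Finsupp.single i 1 : Fin (n + 1) →₀ ℕ)) (midF n) := by
      intro a _ b _ h
      exact (Finsupp.single_left_inj (by norm_num)).1 h
    have h1 : (insert 0 ((midF n).image (fun i => Finsupp.single i 1)) :
        Finset (Fin (n + 1) →₀ ℕ)).card = n := by
      rw [Finset.card_insert_of_notMem h0mem, Finset.card_image_of_injOn hinj, hmid]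
      omega
    rw [← h1, hr]
    apply Finset.card_le_card
    intro v hv
    rcases Finset.mem_insert.1 hv with rfl | hv
    · exact K₁.zero_mem
    · obtain ⟨i, hi, rfl⟩ := Finset.mem_image.1 hv
      exact hsing i hi
  obtain ⟨e, he⟩ : ∃ e, r = n + e := ⟨r - n, by omega⟩
  have hhigh : ∀ K : Cone (Fin (n + 1)), K.O = (O_finite s hs).toFinset → K.mid = midF n →
      ∀ t, 1 ≤ t → K.W t ≤ (t + 1) * (w + 1).choose (t + 2) := by
    intro K hKO hKm t ht
    have h1 := K.W_high t e (by rw [hKO, hKm, hmid]; omega) (by rw [hKO, hKm]; exact hsing)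
    rw [hKm, hmid] at h1
    rw [show n - 1 + 2 = n + 1 by omega, show n - 1 + 1 = n by omega] at h1
    exact h1.trans (numer_high n w r t hn hnw e he hbound ht)
  have hsum := K₁.W_zero K₂ rfl rfl (by
    intro i _ j _ h
    have h' : n - i.val < n - j.val := h
    show j.val < i.val
    omega)
  have hmid₁ : K₁.mid.card = n - 1 := hmid
  rw [hmid₁, hO₁, show n - 1 + 1 = n by omega] at hsum
  have hch : (w + 1).choose 2 * 2 = w * (w + 1) := by
    rw [Nat.choose_two_right, Nat.div_mul_cancel (Nat.even_mul_pred_self _).two_dvd]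
    simp [mul_comm]
  have hsum2 : K₁.W 0 + K₂.W 0 ≤ (w + 1).choose 2 * 2 := by
    rw [hch]
    calc _ ≤ n * (r + 1) := hsum
      _ = (r + 1) * n := mul_comm _ _
      _ ≤ _ := hbound
  rcases Nat.lt_or_ge (K₂.W 0) (K₁.W 0) with hlt | hge
  · refine ⟨K₂.W, isStage0 s hs hn p₂ hp₂, ?_⟩
    intro t
    rcases Nat.eq_zero_or_pos t with rfl | ht
    · simp only [zero_add, one_mul]
      omega
    · exact hhigh K₂ rfl rfl t ht
  · refine ⟨K₁.W, isStage0 s hs hn p₁ hp₁, ?_⟩
    intro t
    rcases Nat.eq_zero_or_pos t with rfl | ht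
    · simp only [zero_add, one_mul]
      omega
    · exact hhigh K₁ rfl rfl t ht

/-- The degenerate case of one variable. -/
lemma phi_ker_zero (s : Fin 1 → ℕ) (hs : s 0 = 1) :
    RingHom.ker (MvPolynomial.aeval (fun i : Fin 1 => (Polynomial.X : Polynomial k) ^ s i) :
      MvPolynomial (Fin 1) k →ₐ[k] Polynomial k) = ⊥ := by
  rw [eq_bot_iff]
  intro p hp
  have hp' : phi s p = 0 := hp
  rw [Submodule.mem_bot, MvPolynomial.eq_zero_iff]
  intro m
  by_contra hm
  have h1 : (phi s p).coeff (bb s m) = 0 := by rw [hp']; simp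
  rw [phi_coeff, Finset.sum_eq_single m] at h1
  · rw [if_pos rfl] at h1
    exact hm h1
  · intro b hb hbm
    rw [if_neg]
    intro e
    apply hbm
    have hb0 : b 0 = m 0 := by simpa [bb, hs] using e
    apply Finsupp.ext
    intro i
    have hi : i = 0 := Subsingleton.elim _ _
    rw [hi]
    exact hb0
  · intro h
    exact absurd (MvPolynomial.mem_support_iff.2 hm) h

end

/-- The main theorem. -/
theorem main (k : Type) [Field k] (n : ℕ) (s : Fin (n+1) → ℕ)
    (hmono : StrictMono s) (h0 : 0 < s 0) (hgcd : Finset.univ.gcd s = 1)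
    (hmin : ∀ i : Fin (n+1), s i ∉ AddSubmonoid.closure
        (Set.range (fun j : {j : Fin (n+1) // j ≠ i} => s j.1))) :
    ∃ (b : ℕ → ℕ)
      (d₀ : (Fin (b 1) → MvPolynomial (Fin (n+1)) k) →ₗ[MvPolynomial (Fin (n+1)) k]
              MvPolynomial (Fin (n+1)) k)
      (d : ∀ t : ℕ, (Fin (b (t+1+1)) → MvPolynomial (Fin (n+1)) k) →ₗ[MvPolynomial (Fin (n+1)) k]
              (Fin (b (t+1)) → MvPolynomial (Fin (n+1)) k)),
      LinearMap.range d₀ = RingHom.ker
          (MvPolynomial.aeval (fun i : Fin (n+1) => (Polynomial.X : Polynomial k) ^ s i)) ∧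
      LinearMap.range (d 0) = LinearMap.ker d₀ ∧
      (∀ t : ℕ, LinearMap.range (d (t+1)) = LinearMap.ker (d t)) ∧
      (∀ t : ℕ, 1 ≤ t → b t ≤ t * Nat.choose (s (Fin.last n) - s 0 + 1) (t+1)) := by
  rcases Nat.eq_zero_or_pos n with rfl | hn
  · refine ⟨fun _ => 0, 0, fun _ => 0, ?_, ?_, ?_, ?_⟩
    · rw [LinearMap.range_zero, phi_ker_zero]
      simpa using hgcd
    · ext x
      simp [Subsingleton.elim x 0]
    · intro t
      ext x
      simp [Subsingleton.elim x 0]
    · intro t _
      exact Nat.zero_le _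
  · have hs : ∀ i, 0 < s i := fun i => lt_of_lt_of_le h0 (hmono.monotone (Fin.zero_le i))
    obtain ⟨W, hW, hWle⟩ := exists_good (k := k) s hmono hs hn hmin
    obtain ⟨d₀, d, h1, h2, h3⟩ := chain _ W hW
    refine ⟨fun t => W (t - 1), (LinearMap.proj ()).comp d₀, fun t => d t, ?_, ?_, ?_, ?_⟩
    · ext x
      rw [LinearMap.mem_range]
      constructor
      · rintro ⟨y, rfl⟩
        have h4 : d₀ y ∈ NN (k := k) s := h1 ▸ ⟨y, rfl⟩
        rw [mem_NN] at h4
        exact h4
      · intro hx
        have h4 : (fun _ : Unit => x) ∈ NN (k := k) s := by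
          rw [mem_NN]
          exact hx
        rw [← h1] at h4
        obtain ⟨y, hy⟩ := h4
        refine ⟨y, ?_⟩
        rw [LinearMap.comp_apply, hy]
        rfl
    · show LinearMap.range (d 0) = LinearMap.ker ((LinearMap.proj ()).comp d₀)
      rw [h2]
      ext x
      rw [LinearMap.mem_ker, LinearMap.mem_ker, LinearMap.comp_apply]
      constructor
      · intro h
        rw [h]
        simp
      · intro h
        funext u
        exact h
    · exact h3
    · intro t ht
      obtain ⟨t', rfl⟩ : ∃ t', t = t' + 1 := ⟨t - 1, by omega⟩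
      exact hWle t'

end Pool.Agent.Helper33.BW
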