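import Pool.Agent.Helper33.BW.Iso

set_option autoImplicit false
set_option linter.unusedSectionVars false

namespace Pool.Agent.Helper33.BW

open Finset
open scoped Pointwise

lemma seq_bound (x : ℕ) (hx : 0 < x) (L : ℕ) : ∀ u : ℕ → ℕ,
    (∀ m, u (m + 1) = 0 ∨ 2 * u (m + 1) + x ≤ 2 * u m) →
    16 * x * ∑ j ∈ range L, u j ≤ (4 * u 0 + x) ^ 2 := by
  induction L with
  | zero => intro u _; simp
  | succ L ih =>
    intro u hu
    rw [sum_range_succ']
    have hzero : u 1 = 0 → ∀ j, u (j + 1) = 0 := by
      intro h1 j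
      induction j with
      | zero => exact h1
      | succ j ihj =>
        rcases hu (j + 1) with h | h
        · exact h
        · omega
    rcases hu 0 with h | h
    · have : ∑ j ∈ range L, u (j + 1) = 0 := by
        apply Finset.sum_eq_zero
        intro j _
        exact hzero h j
      rw [this, zero_add]
      nlinarith [sq_nonneg ((4 * u 0 : ℤ) - x), mul_self_nonneg ((4 * u 0 : ℤ) - x),
        show ((16 * x * u 0 : ℕ) : ℤ) ≤ (((4 * u 0 + x) ^ 2 : ℕ) : ℤ) by
          push_cast; nlinarith [sq_nonneg ((4 * u 0 : ℤ) - x)]]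
    · have h1 := ih (fun j => u (j + 1)) (fun m => hu (m + 1))
      simp only [zero_add] at h1 h
      -- 4 u1 + x ≤ 4 u0 - x
      zify at h h1 ⊢
      have h2 : (4 * (u 1 : ℤ) + x) ≤ 4 * u 0 - x := by linarith
      have h3 : (4 * (u 1 : ℤ) + x) ^ 2 ≤ (4 * u 0 - x) ^ 2 := by
        apply pow_le_pow_left₀ (by positivity) h2
      nlinarith

/-- Final inequality on the sizes of iterated sumsets. -/
lemma growth_ineq (w x : ℕ) (hx : 0 < x) (hxw : x ≤ w) (c : ℕ → ℕ) (h0 : c 0 = 1) (h1 : c 1 = x)
    (hle : ∀ m, c m ≤ w) (hrec : ∀ m, c (m + 1) = w ∨ x + 2 * c m ≤ 2 * c (m + 1))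
    (htop : ∀ m, c m = w → c (m + 1) = w) (h2 : w < 2 * x → c 2 = w) (M : ℕ) :
    (2 + ∑ m ∈ range M, (w - c m)) * x ≤ w * (w + 1) := by
  have hmono : ∑ m ∈ range M, (w - c m) ≤ ∑ m ∈ range (M + 1), (w - c m) := by
    rw [sum_range_succ]; omega
  have hgoal : (2 + ∑ m ∈ range (M + 1), (w - c m)) * x ≤ w * (w + 1) := by
    rw [sum_range_succ', h0]
    by_cases hc : w < 2 * x
    · have hz : ∀ j, c (j + 2) = w := by
        intro j
        induction j with
        | zero => exact h2 hc
        | succ j ih => exact htop _ ih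
      have hs : ∑ j ∈ range M, (w - c (j + 1)) ≤ w - x := by
        rcases M with _ | M
        · simp
        · rw [sum_range_succ', zero_add, h1]
          have : ∑ j ∈ range M, (w - c (j + 1 + 1)) = 0 := by
            apply Finset.sum_eq_zero
            intro j _
            have := hz j
            rw [show j + 1 + 1 = j + 2 by ring, this]
            omega
          omega
      obtain ⟨y, rfl⟩ : ∃ y, w = x + y := ⟨w - x, by omega⟩
      rw [show x + y - x = y by omega] at hs
      have h3 : 2 + (∑ j ∈ range M, (x + y - c (j + 1)) + (x + y - 1)) ≤ 1 + x + 2 * y := by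
        omega
      calc (2 + (∑ j ∈ range M, (x + y - c (j + 1)) + (x + y - 1))) * x ≤
          (1 + x + 2 * y) * x := by gcongr
        _ ≤ (x + y) * (x + y + 1) := by nlinarith
    · push Not at hc
      have hs := seq_bound x hx M (fun j => w - c (j + 1)) (by
        intro m
        rcases hrec (m + 1) with h | h
        · left; omega
        · right
          have := hle (m + 1)
          have := hle (m + 1 + 1)
          omega)
      simp only [zero_add, h1] at hs
      set T := ∑ j ∈ range M, (w - c (j + 1)) with hT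
      obtain ⟨y, rfl⟩ : ∃ y, w = 2 * x + y := ⟨w - 2 * x, by omega⟩
      rw [show 2 * x + y - x = x + y by omega] at hs
      have e : 2 + (T + (2 * x + y - 1)) = 1 + T + 2 * x + y := by omega
      rw [e]
      nlinarith
  calc (2 + ∑ m ∈ range M, (w - c m)) * x ≤ (2 + ∑ m ∈ range (M + 1), (w - c m)) * x := by gcongr
    _ ≤ _ := hgoal

/-- Iterated sumsets in a finite group. -/
def CC {Γ : Type} [AddCommGroup Γ] [DecidableEq Γ] (A : Finset Γ) : ℕ → Finset Γ
  | 0 => {0}
  | m + 1 => CC A m + A

lemma zero_mem_CC {Γ : Type} [AddCommGroup Γ] [DecidableEq Γ] {A : Finset Γ} (h0 : 0 ∈ A) (m : ℕ) :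
    (0 : Γ) ∈ CC A m := by
  induction m with
  | zero => simp [CC]
  | succ m ih =>
    rw [CC, mem_add]
    exact ⟨0, ih, 0, h0, add_zero 0⟩

lemma add_self_univ {Γ : Type} [AddCommGroup Γ] [Fintype Γ] [DecidableEq Γ] (A : Finset Γ)
    (h : Fintype.card Γ < 2 * A.card) : A + A = univ := by
  rw [eq_univ_iff_forall]
  intro g
  by_contra hg
  have hinj : Function.Injective (fun a : Γ => g - a) := fun a b hab => by
    simpa using hab
  have hdisj : Disjoint A (A.image (fun a => g - a)) := by
    rw [disjoint_left]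
    intro a ha ha'
    obtain ⟨b, hb, hab⟩ := mem_image.1 ha'
    apply hg
    rw [mem_add]
    exact ⟨a, ha, b, hb, by rw [← hab]; abel⟩
  have h1 := card_le_univ (A ∪ A.image (fun a => g - a))
  rw [card_union_of_disjoint hdisj, card_image_of_injective _ hinj] at h1
  omega

/-- The growth inequality for iterated sumsets. -/
theorem group_growth {Γ : Type} [AddCommGroup Γ] [Fintype Γ] [DecidableEq Γ] (A : Finset Γ)
    (h0 : 0 ∈ A) (hA : AddSubgroup.closure (A : Set Γ) = ⊤) (M : ℕ) :
    (2 + ∑ m ∈ range M, (Fintype.card Γ - (CC A m).card)) * A.card ≤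
      Fintype.card Γ * (Fintype.card Γ + 1) := by
  have h1 : CC A 1 = A := by
    show ({0} : Finset Γ) + A = A
    rw [singleton_zero, zero_add]
  apply growth_ineq (Fintype.card Γ) A.card (card_pos.2 ⟨0, h0⟩) (card_le_univ A)
    (fun m => (CC A m).card)
  · simp [CC]
  · simp only [h1]
  · intro m
    exact card_le_univ _
  · intro m
    by_cases h : CC A m + A = univ
    · left
      show (CC A m + A).card = _
      rw [h, card_univ]
    · right
      exact iso A h0 hA (CC A m) ⟨0, zero_mem_CC h0 m⟩ h
  · intro m hm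
    have h2 : CC A m = univ := by
      rw [← card_eq_iff_eq_univ]
      exact hm
    have h3 : CC A m + A = univ := by
      rw [eq_univ_iff_forall]
      intro g
      exact subset_add_of_zero h0 _ (by rw [h2]; exact mem_univ g)
    show (CC A m + A).card = _
    rw [h3, card_univ]
  · intro h
    have h2 : CC A 2 = A + A := by
      show CC A 1 + A = A + A
      rw [h1]
    show (CC A 2).card = _
    rw [h2, add_self_univ A h, card_univ]

end Pool.Agent.Helper33.BW
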