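import Mathlib

set_option autoImplicit false
set_option linter.unusedSectionVars false

namespace Pool.Agent.Helper33.BW

open Finset
open scoped Pointwise

variable {Γ : Type} [AddCommGroup Γ] [Fintype Γ] [DecidableEq Γ]

/-- Admissible sets for the isoperimetric problem. -/
def Adm (B X : Finset Γ) : Prop := X.Nonempty ∧ X + B ≠ univ

lemma subset_add_of_zero {B : Finset Γ} (h0 : 0 ∈ B) (X : Finset Γ) : X ⊆ X + B := by
  intro x hx
  rw [mem_add]
  exact ⟨x, hx, 0, h0, add_zero x⟩

lemma dual_adm {B X : Finset Γ} (h : Adm B X) : Adm (-B) (X + B)ᶜ := by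
  constructor
  · rw [nonempty_iff_ne_empty, Ne, compl_eq_empty_iff]
    exact h.2
  · intro hu
    obtain ⟨x, hx⟩ := h.1
    have hx' : x ∈ (X + B)ᶜ + -B := by rw [hu]; exact mem_univ x
    obtain ⟨y, hy, b, hb, e⟩ := mem_add.1 hx'
    rw [mem_neg] at hb
    obtain ⟨b', hb', rfl⟩ := hb
    rw [mem_compl] at hy
    apply hy
    rw [mem_add]
    exact ⟨x, hx, b', hb', by rw [← e]; abel⟩

lemma dual_card {B X : Finset Γ} : ((X + B)ᶜ + -B).card + X.card ≤ Fintype.card Γ := by
  have h : (X + B)ᶜ + -B ⊆ Xᶜ := by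
    intro x hx
    obtain ⟨y, hy, b, hb, e⟩ := mem_add.1 hx
    rw [mem_neg] at hb
    obtain ⟨b', hb', rfl⟩ := hb
    rw [mem_compl] at hy ⊢
    intro hxX
    apply hy
    rw [mem_add]
    exact ⟨x, hxX, b', hb', by rw [← e]; abel⟩
  have h2 := card_le_card h
  have h3 : Xᶜ.card + X.card = Fintype.card Γ := by
    rw [add_comm]; exact card_add_card_compl X
  omega

lemma atom_inter {B : Finset Γ} (κ : ℕ)
    (hκ : ∀ X, Adm B X → X.card + κ ≤ (X + B).card)
    {M : Finset Γ} (hM : Adm B M) (hMκ : (M + B).card = M.card + κ)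
    (hmin : ∀ X, Adm B X → (X + B).card = X.card + κ → M.card ≤ X.card)
    (hsize : 2 * M.card + κ ≤ Fintype.card Γ) (x : Γ) (hne : (M ∩ (x +ᵥ M)).Nonempty) :
    x +ᵥ M = M := by
  set M' := x +ᵥ M with hM'
  have hcM' : M'.card = M.card := card_vadd_finset x M
  have hcM'B : (M' + B).card = M.card + κ := by
    rw [hM', vadd_add_assoc, card_vadd_finset, hMκ]
  set I := M ∩ M' with hI
  set U := M ∪ M' with hU
  have hIB : I + B ⊆ (M + B) ∩ (M' + B) :=
    subset_inter (add_subset_add_right inter_subset_left) (add_subset_add_right inter_subset_right)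
  have hUB : U + B = (M + B) ∪ (M' + B) := union_add
  have hIadm : Adm B I := by
    refine ⟨hne, ?_⟩
    intro h
    apply hM.2
    rw [eq_univ_iff_forall] at h ⊢
    intro y
    exact mem_of_mem_inter_left (hIB (h y))
  have h1 := hκ I hIadm
  have h2 := card_le_card hIB
  have h3 := card_union_add_card_inter (M + B) (M' + B)
  have h4 := card_union_add_card_inter M M'
  have hIpos : 0 < I.card := card_pos.2 hne
  rw [← hUB] at h3
  rw [← hU, ← hI] at h4
  have hUadm : Adm B U := by
    refine ⟨?_, ?_⟩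
    · obtain ⟨y, hy⟩ := hM.1
      exact ⟨y, mem_union_left _ hy⟩
    · intro h
      have h5 : (U + B).card = Fintype.card Γ := by rw [h]; exact card_univ
      omega
  have h5 := hκ U hUadm
  have h6 : (I + B).card = I.card + κ := by omega
  have h7 := hmin I hIadm h6
  have h8 : I = M := eq_of_subset_of_card_le inter_subset_left h7
  have h9 : M ⊆ M' := by
    rw [← h8]
    exact inter_subset_right
  exact (eq_of_subset_of_card_le h9 hcM'.le).symm

lemma atom_case {B : Finset Γ} (h0 : 0 ∈ B)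
    (hB : AddSubgroup.closure (B : Set Γ) = ⊤) (κ : ℕ)
    (hκ : ∀ X, Adm B X → X.card + κ ≤ (X + B).card)
    (hκ' : ∀ X, Adm (-B) X → X.card + κ ≤ (X + -B).card)
    {M : Finset Γ} (hM : Adm B M) (hMκ : (M + B).card = M.card + κ)
    (hmin : ∀ X, Adm B X → (X + B).card = X.card + κ → M.card ≤ X.card)
    (hmin' : ∀ X, Adm (-B) X → (X + -B).card = X.card + κ → M.card ≤ X.card) :
    B.card ≤ 2 * κ := by
  have hd := dual_adm hM
  have hdc := dual_card (B := B) (X := M)
  have hcc : (M + B).card + (M + B)ᶜ.card = Fintype.card Γ := card_add_card_compl _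
  have h1 := hκ' _ hd
  have h2 : ((M + B)ᶜ + -B).card = (M + B)ᶜ.card + κ := by omega
  have h3 := hmin' _ hd h2
  have hsize : 2 * M.card + κ ≤ Fintype.card Γ := by omega
  have hint := atom_inter κ hκ hM hMκ hmin hsize
  -- some b in B moves M
  have hmove : ∃ b ∈ B, b +ᵥ M ≠ M := by
    by_contra hc
    push Not at hc
    have hle : AddSubgroup.closure (B : Set Γ) ≤ AddAction.stabilizer Γ M := by
      rw [AddSubgroup.closure_le]
      intro b hb
      exact hc b hb
    rw [hB] at hle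
    apply hM.2
    rw [eq_univ_iff_forall]
    intro y
    obtain ⟨a, ha⟩ := hM.1
    have h4 : y - a ∈ AddAction.stabilizer Γ M := hle (AddSubgroup.mem_top _)
    have h5 : (y - a) +ᵥ M = M := h4
    apply subset_add_of_zero h0
    rw [← h5, mem_vadd_finset]
    exact ⟨a, ha, by simp⟩
  obtain ⟨b, hb, hbM⟩ := hmove
  have hdisj : Disjoint M (b +ᵥ M) := by
    rw [disjoint_iff_inter_eq_empty, ← not_nonempty_iff_eq_empty]
    intro hne
    exact hbM (hint b hne)
  have hsub : M ∪ (b +ᵥ M) ⊆ M + B := by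
    apply union_subset (subset_add_of_zero h0 M)
    intro y hy
    obtain ⟨m, hm, rfl⟩ := mem_vadd_finset.1 hy
    rw [mem_add]
    exact ⟨m, hm, b, hb, by rw [vadd_eq_add, add_comm]⟩
  have h4 := card_le_card hsub
  rw [card_union_of_disjoint hdisj, card_vadd_finset] at h4
  have h5 : B.card ≤ (M + B).card := by
    obtain ⟨a, ha⟩ := hM.1
    have : a +ᵥ B ⊆ M + B := by
      intro y hy
      obtain ⟨m, hm, rfl⟩ := mem_vadd_finset.1 hy
      rw [mem_add]
      exact ⟨a, ha, m, hm, by rw [vadd_eq_add]⟩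
    have := card_le_card this
    rwa [card_vadd_finset] at this
  omega

/-- Isoperimetric inequality in a finite abelian group. -/
theorem iso (B : Finset Γ) (h0 : 0 ∈ B) (hB : AddSubgroup.closure (B : Set Γ) = ⊤)
    (X : Finset Γ) (hX : X.Nonempty) (hne : X + B ≠ univ) :
    B.card + 2 * X.card ≤ 2 * (X + B).card := by
  classical
  have hex : ∃ c, ∃ X, Adm B X ∧ (X + B).card = X.card + c := by
    refine ⟨(X + B).card - X.card, X, ⟨hX, hne⟩, ?_⟩
    have := card_le_card (subset_add_of_zero h0 X)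
    omega
  set κ := Nat.find hex with hκdef
  have hκ : ∀ X, Adm B X → X.card + κ ≤ (X + B).card := by
    intro X hX
    have h1 := card_le_card (subset_add_of_zero h0 X)
    have h2 : κ ≤ (X + B).card - X.card := Nat.find_min' hex ⟨X, hX, by omega⟩
    omega
  have hκ' : ∀ X, Adm (-B) X → X.card + κ ≤ (X + -B).card := by
    intro X hX
    have h1 := dual_adm hX
    rw [neg_neg] at h1
    have h2 := hκ _ h1
    have h3 := dual_card (B := -B) (X := X)
    rw [neg_neg] at h3
    have h4 : (X + -B).card + (X + -B)ᶜ.card = Fintype.card Γ := card_add_card_compl _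
    omega
  obtain ⟨X₀, hX₀, hX₀κ⟩ := Nat.find_spec hex
  have hex2 : ∃ c, ∃ X : Finset Γ, X.card = c ∧ ((Adm B X ∧ (X + B).card = X.card + κ) ∨
      (Adm (-B) X ∧ (X + -B).card = X.card + κ)) := ⟨X₀.card, X₀, rfl, Or.inl ⟨hX₀, hX₀κ⟩⟩
  obtain ⟨M, hMc, hM⟩ := Nat.find_spec hex2
  have hmin : ∀ X, ((Adm B X ∧ (X + B).card = X.card + κ) ∨
      (Adm (-B) X ∧ (X + -B).card = X.card + κ)) → M.card ≤ X.card := by
    intro X hX
    rw [hMc]
    exact Nat.find_min' hex2 ⟨X, rfl, hX⟩
  have hfin : B.card ≤ 2 * κ := by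
    rcases hM with ⟨h1, h2⟩ | ⟨h1, h2⟩
    · exact atom_case h0 hB κ hκ hκ' h1 h2 (fun X a b => hmin X (Or.inl ⟨a, b⟩))
        (fun X a b => hmin X (Or.inr ⟨a, b⟩))
    · have h3 : (-B).card ≤ 2 * κ := by
        apply atom_case (B := -B) (by simpa using h0) ?_ κ hκ' ?_ h1 h2
          (fun X a b => hmin X (Or.inr ⟨a, b⟩)) ?_
        · rw [coe_neg, AddSubgroup.closure_neg]
          exact hB
        · rw [neg_neg]; exact hκ
        · rw [neg_neg]
          exact fun X a b => hmin X (Or.inl ⟨a, b⟩)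
      rwa [card_neg] at h3
  have := hκ X ⟨hX, hne⟩
  omega

end Pool.Agent.Helper33.BW
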