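import Pool.Agent.Helper33.BW.Count
import Pool.Agent.Helper33.BW.Cone

set_option autoImplicit false
set_option linter.unusedSectionVars false

namespace Pool.Agent.Helper33.BW

open Finset

section
variable {n : ℕ} (s : Fin (n + 1) → ℕ)

/-- Priority key of a monomial. -/
noncomputable def kap (m : Fin (n + 1) →₀ ℕ) : ℕ ×ₗ ℕ ×ₗ Lex (Fin (n + 1) →₀ ℕ) :=
  toLex (m 0, toLex (m (Fin.last n), toLex m))

lemma kap_lt_iff (a b : Fin (n + 1) →₀ ℕ) : kap a < kap b ↔
    a 0 < b 0 ∨ (a 0 = b 0 ∧ (a (Fin.last n) < b (Fin.last n) ∨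
      (a (Fin.last n) = b (Fin.last n) ∧ toLex a < toLex b))) := by
  unfold kap
  rw [Prod.Lex.toLex_lt_toLex, Prod.Lex.toLex_lt_toLex]

lemma kap_inj {a b : Fin (n + 1) →₀ ℕ} (h : kap a = kap b) : a = b := by
  have h1 : (ofLex (kap a)).2 = (ofLex (kap b)).2 := by rw [h]
  have h2 : (ofLex ((ofLex (kap a)).2)).2 = (ofLex ((ofLex (kap b)).2)).2 := by rw [h1]
  exact h2

lemma kap_add_lt (c a b : Fin (n + 1) →₀ ℕ) : kap (c + a) < kap (c + b) ↔ kap a < kap b := by
  rw [kap_lt_iff, kap_lt_iff]
  simp only [Finsupp.coe_add, Pi.add_apply, add_lt_add_iff_left, add_right_inj, toLex_add]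

/-- Standard monomials: the best monomial in each fibre. -/
def IsStd (m : Fin (n + 1) →₀ ℕ) : Prop := ∀ m', bb s m' = bb s m → kap m' ≤ kap m

lemma fib_finite (hs : ∀ i, 0 < s i) (q : ℕ) : {m : Fin (n + 1) →₀ ℕ | bb s m = q}.Finite := by
  apply (Set.finite_Iic (Finsupp.equivFunOnFinite.symm (fun _ : Fin (n + 1) => q))).subset
  intro m hm i
  have h1 : m i * s i ≤ bb s m := by
    unfold bb
    exact Finset.single_le_sum (f := fun i => m i * s i) (fun _ _ => Nat.zero_le _) (mem_univ i)
  have h2 : m i ≤ m i * s i := Nat.le_mul_of_pos_right _ (hs i)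
  rw [Set.mem_ofPred_eq] at hm
  simp only [Finsupp.equivFunOnFinite_symm_apply_apply]
  omega

lemma exists_std (hs : ∀ i, 0 < s i) (m : Fin (n + 1) →₀ ℕ) :
    ∃ m', IsStd s m' ∧ bb s m' = bb s m ∧ kap m ≤ kap m' := by
  obtain ⟨m', hm', hmax⟩ := Finset.exists_max_image (fib_finite s hs (bb s m)).toFinset kap
    ⟨m, by simp⟩
  have h1 : bb s m' = bb s m := by simpa using hm'
  refine ⟨m', ?_, h1, hmax m (by simp)⟩
  intro m'' h2
  apply hmax
  simp [h2, h1]

lemma std_unique {m m' : Fin (n + 1) →₀ ℕ} (h : IsStd s m) (h' : IsStd s m')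
    (e : bb s m = bb s m') : m = m' :=
  kap_inj (le_antisymm (h' m e) (h m' e.symm))

lemma std_down (a b : Fin (n + 1) →₀ ℕ) (h : IsStd s (a + b)) : IsStd s a := by
  intro m' hm'
  by_contra hc
  push Not at hc
  have h1 := (kap_add_lt b a m').2 hc
  have h2 := h (b + m') (by rw [bb_add, bb_add, hm', add_comm])
  rw [add_comm a b] at h2
  exact absurd h1 (not_lt.2 h2)

lemma std_add_zero (m : Fin (n + 1) →₀ ℕ) (c : ℕ) (h : IsStd s m) :
    IsStd s (m + Finsupp.single 0 c) := by
  intro m' hm'
  by_contra hc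
  push Not at hc
  have hc0 : c ≤ m' 0 := by
    have h1 : (m + Finsupp.single 0 c : Fin (n + 1) →₀ ℕ) 0 ≤ m' 0 := by
      rw [kap_lt_iff] at hc
      rcases hc with h2 | h2
      · exact h2.le
      · exact h2.1.le
    simp at h1
    omega
  obtain ⟨m'', rfl⟩ : ∃ m'', m' = m'' + Finsupp.single 0 c :=
    ⟨m' - Finsupp.single 0 c, by
      rw [tsub_add_cancel_of_le]
      rw [Finsupp.single_le_iff]
      exact hc0⟩
  rw [bb_add, bb_add] at hm'
  have h1 := h m'' (by omega)
  rw [add_comm m, add_comm m'', kap_add_lt] at hc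
  exact absurd hc (not_lt.2 h1)

lemma not_std_single (hs : ∀ i, 0 < s i) (i : Fin (n + 1)) (hi : i ≠ 0) :
    ¬ IsStd s (Finsupp.single i (s 0)) := by
  intro h
  have h1 := h (Finsupp.single 0 (s i)) (by rw [bb_single, bb_single, mul_comm])
  apply absurd h1
  rw [not_le, kap_lt_iff]
  left
  simp [hi]
  exact (hs i)

/-- The middle variables. -/
def midF (n : ℕ) : Finset (Fin (n + 1)) := (univ.erase 0).erase (Fin.last n)

lemma mem_midF (i : Fin (n + 1)) : i ∈ midF n ↔ i ≠ 0 ∧ i ≠ Fin.last n := by
  unfold midF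
  simp only [mem_erase, mem_univ, and_true]
  tauto

lemma card_midF (hn : 0 < n) : (midF n).card = n - 1 := by
  unfold midF
  rw [card_erase_of_mem, card_erase_of_mem (mem_univ _)]
  · simp
  · simp only [mem_erase, mem_univ, and_true]
    intro h
    have := congrArg Fin.val h
    simp at this
    omega

lemma O_finite (hs : ∀ i, 0 < s i) :
    {v : Fin (n + 1) →₀ ℕ | IsStd s v ∧ ∀ i, i ∉ midF n → v i = 0}.Finite := by
  apply (Set.finite_Iic (Finsupp.equivFunOnFinite.symm (fun _ : Fin (n + 1) => s 0))).subset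
  rintro v ⟨hv, hv'⟩ i
  simp only [Finsupp.equivFunOnFinite_symm_apply_apply]
  by_cases hi : i ∈ midF n
  · by_contra hc
    push Not at hc
    apply not_std_single s hs i ((mem_midF i).1 hi).1
    apply std_down s _ (v - Finsupp.single i (s 0))
    rw [add_tsub_cancel_of_le]
    · exact hv
    · rw [Finsupp.single_le_iff]
      exact hc.le
  · rw [hv' i hi]
    exact Nat.zero_le _

lemma exists_beta (hs : ∀ i, 0 < s i) (hn : 0 < n) (v : Fin (n + 1) →₀ ℕ) :
    ∃ b, ¬ IsStd s (v + Finsupp.single (Fin.last n) b) := by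
  refine ⟨s 0, ?_⟩
  intro h
  apply not_std_single s hs (Fin.last n)
  · intro h
    have := congrArg Fin.val h
    simp at this
    omega
  · rw [add_comm] at h
    exact std_down s _ _ h

lemma std_zero (hs : ∀ i, 0 < s i) : IsStd s 0 := by
  intro m' hm'
  have : m' = 0 := by
    ext i
    have h1 : bb s m' = 0 := by rw [hm']; simp [bb]
    have h2 := (Finset.sum_eq_zero_iff.1 h1) i (mem_univ i)
    rcases Nat.mul_eq_zero.1 h2 with h3 | h3
    · exact h3
    · exact absurd h3 (hs i).ne'
  rw [this]

open Classical in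
/-- The cone data of a numerical semigroup, with a given priority of the middle variables. -/
noncomputable def coneOf (hs : ∀ i, 0 < s i) (hn : 0 < n) (p : Fin (n + 1) → ℕ)
    (hp : Function.Injective p) : Cone (Fin (n + 1)) where
  Std := IsStd s
  std0 := std_zero s hs
  down := std_down s
  mid := midF n
  z := Fin.last n
  hz := by simp [mem_midF]
  O := (O_finite s hs).toFinset
  hO := by
    intro v
    rw [Set.Finite.mem_toFinset]
    rfl
  β := fun v => Nat.find (exists_beta s hs hn v)
  hβ1 := fun v _ => Nat.find_spec (exists_beta s hs hn v)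
  hβ2 := by
    intro m hm hmd
    by_contra hc
    push Not at hc
    apply hm
    have h1 := Nat.find_min (exists_beta s hs hn _) hc
    rw [not_not] at h1
    have h2 := std_add_zero s _ (m 0) h1
    have e : m.filter (· ∈ midF n) + Finsupp.single (Fin.last n) (m (Fin.last n)) +
        Finsupp.single 0 (m 0) = m := by
      have h0l : (0 : Fin (n + 1)) ≠ Fin.last n := by
        intro h
        have := congrArg Fin.val h
        simp at this
        omega
      ext i
      simp only [Finsupp.coe_add, Pi.add_apply, Finsupp.filter_apply, mem_midF]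
      by_cases h3 : i = 0
      · subst h3
        simp [h0l.symm]
      · by_cases h4 : i = Fin.last n
        · subst h4
          simp [h0l]
        · simp [h3, h4]
    rw [e] at h2
    exact h2
  p := p
  hp := hp.injOn

lemma mem_O (hs : ∀ i, 0 < s i) (v : Fin (n + 1) →₀ ℕ) : v ∈ (O_finite s hs).toFinset ↔
    IsStd s v ∧ ∀ i, i ∉ midF n → v i = 0 := by
  rw [Set.Finite.mem_toFinset]
  rfl

/-- Minimality of the generators makes the middle variables standard. -/
lemma single_std (hmin : ∀ i : Fin (n + 1), s i ∉ AddSubmonoid.closure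
        (Set.range (fun j : {j : Fin (n + 1) // j ≠ i} => s j.1))) (hs : ∀ i, 0 < s i)
    (i : Fin (n + 1)) : IsStd s (Finsupp.single i 1) := by
  intro m' hm'
  rw [bb_single, one_mul] at hm'
  have h1 : m' i ≠ 0 := by
    intro h0
    apply hmin i
    rw [← hm']
    unfold bb
    apply AddSubmonoid.sum_mem
    intro j _
    by_cases hj : j = i
    · subst hj
      rw [h0, zero_mul]
      exact AddSubmonoid.zero_mem _
    · rw [← smul_eq_mul]
      apply AddSubmonoid.nsmul_mem
      exact AddSubmonoid.subset_closure ⟨⟨j, hj⟩, rfl⟩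
  obtain ⟨m'', rfl⟩ : ∃ m'', m' = m'' + Finsupp.single i 1 :=
    ⟨m' - Finsupp.single i 1, by
      rw [tsub_add_cancel_of_le]
      rw [Finsupp.single_le_iff]
      omega⟩
  rw [bb_add, bb_single, one_mul] at hm'
  have h2 : bb s m'' = 0 := by omega
  have h3 : m'' = 0 := by
    ext j
    have h4 := (Finset.sum_eq_zero_iff.1 h2) j (mem_univ j)
    rcases Nat.mul_eq_zero.1 h4 with h5 | h5
    · exact h5
    · exact absurd h5 (hs j).ne'
  rw [h3, zero_add]

lemma zmod_closure (w : ℕ) (a : Fin (n + 1) → ℕ) (hg : univ.gcd a = 1) :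
    AddSubgroup.closure ((univ.image (fun i => ((a i : ℕ) : ZMod w)) : Finset (ZMod w)) :
      Set (ZMod w)) = ⊤ := by
  set H := AddSubgroup.closure ((univ.image (fun i => ((a i : ℕ) : ZMod w)) : Finset (ZMod w)) :
      Set (ZMod w)) with hH
  set L := H.comap (Int.castAddHom (ZMod w)) with hL
  obtain ⟨g, hgL⟩ := Int.subgroup_cyclic L
  have hmem : ∀ i, (a i : ℤ) ∈ L := by
    intro i
    rw [hL, AddSubgroup.mem_comap]
    apply AddSubgroup.subset_closure
    simp
  have hdvd : ∀ i, g ∣ (a i : ℤ) := by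
    intro i
    have h1 := hmem i
    rw [hgL, AddSubgroup.mem_closure_singleton] at h1
    obtain ⟨c, hc⟩ := h1
    exact ⟨c, by rw [← hc, smul_eq_mul, mul_comm]⟩
  have h1 : g.natAbs ∣ 1 := by
    rw [← hg]
    apply Finset.dvd_gcd
    intro i _
    have := hdvd i
    exact Int.natAbs_dvd_natAbs.2 this |>.trans (by simp)
  have h2 : g ∣ 1 := by
    rw [← Int.natAbs_dvd_natAbs]
    simpa using h1
  have h3 : (1 : ℤ) ∈ L := by
    rw [hgL, AddSubgroup.mem_closure_singleton]
    obtain ⟨c, hc⟩ := h2
    exact ⟨c, by rw [smul_eq_mul, mul_comm]; exact hc.symm⟩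
  have h4 : (1 : ZMod w) ∈ H := by
    rw [hL, AddSubgroup.mem_comap] at h3
    simpa using h3
  rw [AddSubgroup.eq_top_iff']
  intro x
  have h5 : x = (x.cast : ℤ) • (1 : ZMod w) := by simp
  rw [h5]
  exact AddSubgroup.zsmul_mem _ h4 _

/-- The bound on the number of standard monomials in the middle variables. -/
theorem card_O_bound (hmono : StrictMono s) (h0 : 0 < s 0) (hn : 0 < n) (hs : ∀ i, 0 < s i) :
    ((O_finite s hs).toFinset.card + 1) * n ≤
      (s (Fin.last n) - s 0) * (s (Fin.last n) - s 0 + 1) := by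
  have h0l : (0 : Fin (n + 1)) < Fin.last n := by
    rw [Fin.lt_def]
    simpa using hn
  have hlt := hmono h0l
  have hle0 : ∀ i, s 0 ≤ s i := fun i => hmono.monotone (Fin.zero_le i)
  have hlel : ∀ i, s i ≤ s (Fin.last n) := fun i => hmono.monotone (Fin.le_last i)
  set f : Fin (n + 1) → ℕ := fun i => s i - s 0 with hf
  set d := univ.gcd f with hd
  set a : Fin (n + 1) → ℕ := fun i => f i / d with ha
  have hdf : ∀ i, d ∣ f i := fun i => Finset.gcd_dvd (mem_univ i)
  have hflast : f (Fin.last n) ≠ 0 := by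
    show s (Fin.last n) - s 0 ≠ 0
    omega
  have hdpos : 0 < d := by
    apply Nat.pos_of_ne_zero
    intro h
    have := hdf (Fin.last n)
    rw [h, zero_dvd_iff] at this
    exact hflast this
  have hda : ∀ i, d * a i = f i := fun i => Nat.mul_div_cancel' (hdf i)
  have hga : univ.gcd a = 1 := Finset.gcd_div_eq_one (mem_univ (Fin.last n)) hflast
  set w := a (Fin.last n) with hw
  have hwpos : 0 < w := by
    apply Nat.pos_of_ne_zero
    intro h
    apply hflast
    rw [← hda, ← hw, h, mul_zero]
  have ha0 : a 0 = 0 := by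
    have : f 0 = 0 := by simp [hf]
    simp [ha, this]
  have hamono : StrictMono a := by
    intro i j hij
    have h1 := hmono hij
    have h2 := hle0 i
    have h3 : f i < f j := by
      simp only [hf]
      omega
    rw [← hda i, ← hda j] at h3
    exact Nat.lt_of_mul_lt_mul_left h3
  have haw : ∀ i, a i ≤ w := fun i => hamono.monotone (Fin.le_last i)
  -- the weighted degrees
  have hdeg : ∀ m : Fin (n + 1) →₀ ℕ, bb s m = s 0 * dg m + d * bb a m := by
    intro m
    unfold bb dg
    rw [mul_sum, mul_sum, ← sum_add_distrib]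
    apply sum_congr rfl
    intro i _
    have h1 : s i = s 0 + d * a i := by
      rw [hda]
      simp only [hf]
      have := hle0 i
      omega
    rw [h1]
    ring
  set O := (O_finite s hs).toFinset with hO
  obtain ⟨M, hM⟩ := count_bound a w hwpos 0 (Fin.last n) ha0 rfl haw O
    (by
      intro v hv v' hv' h1 h2
      rw [hO, mem_O s hs] at hv hv'
      apply std_unique s hv.1 hv'.1
      rw [hdeg, hdeg, h1, h2])
    (by
      intro v hv m h1 h2
      rw [hO, mem_O s hs] at hv
      have h3 := hv.1 (m + Finsupp.single 0 1) (by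
        rw [hdeg, hdeg, dg_add, bb_add, dg_single, bb_single, ha0, h1, h2]
        simp)
      apply absurd h3
      rw [not_le, kap_lt_iff]
      left
      rw [hv.2 0 (by simp [mem_midF])]
      simp)
    (by
      intro v hv m h1 h2
      rw [hO, mem_O s hs] at hv
      have h3 := hv.1 (m + Finsupp.single (Fin.last n) 1) (by
        rw [hdeg, hdeg, dg_add, bb_add, dg_single, bb_single, h1, ← h2, one_mul])
      apply absurd h3
      rw [not_le, kap_lt_iff, hv.2 0 (by simp [mem_midF]), hv.2 (Fin.last n) (by simp [mem_midF])]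
      by_cases h4 : m 0 = 0
      · right
        refine ⟨?_, ?_⟩
        · simp [h4, h0l.ne']
        · left
          simp
      · left
        simp
        omega)
  have : NeZero w := ⟨hwpos.ne'⟩
  set A : Finset (ZMod w) := univ.image (fun i => ((a i : ℕ) : ZMod w)) with hA
  have h0A : (0 : ZMod w) ∈ A := by
    rw [hA, mem_image]
    exact ⟨0, mem_univ _, by simp [ha0]⟩
  have hgr := group_growth A h0A (zmod_closure w a hga) M
  rw [ZMod.card] at hgr
  have hcardA : n ≤ A.card := by
    have h1 : (univ.image (fun i : Fin n => ((a i.castSucc : ℕ) : ZMod w))).card = n := by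
      rw [card_image_of_injective, card_univ, Fintype.card_fin]
      intro i j hij
      simp only at hij
      rw [ZMod.natCast_eq_natCast_iff'] at hij
      rw [Nat.mod_eq_of_lt (hamono (Fin.castSucc_lt_last i)),
        Nat.mod_eq_of_lt (hamono (Fin.castSucc_lt_last j))] at hij
      exact Fin.castSucc_injective n (hamono.injective hij)
    rw [← h1]
    apply card_le_card
    intro x hx
    obtain ⟨i, _, rfl⟩ := mem_image.1 hx
    exact mem_image.2 ⟨i.castSucc, mem_univ _, rfl⟩
  have hwle : w ≤ s (Fin.last n) - s 0 := by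
    have h1 : d * w = s (Fin.last n) - s 0 := hda (Fin.last n)
    calc w ≤ d * w := Nat.le_mul_of_pos_left _ hdpos
      _ = _ := h1
  calc (O.card + 1) * n ≤ (2 + ∑ m ∈ range M, (w - (CC A m).card)) * A.card := by
        apply Nat.mul_le_mul _ hcardA
        omega
    _ ≤ w * (w + 1) := hgr
    _ ≤ _ := by gcongr

end

end Pool.Agent.Helper33.BW
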