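import Pool.Agent.Helper33.BW.Basic

set_option autoImplicit false
set_option linter.unusedSectionVars false

namespace Pool.Agent.Helper33.BW

open MvPolynomial

variable {σ : Type} {k : Type} [Field k]

/-- A Schreyer type stage: a submodule with a normal form theory and an involutive family. -/
structure Stage (ι : Type) (N : Submodule (MvPolynomial σ k) (ι → MvPolynomial σ k)) where
  R : ι × (σ →₀ ℕ) → ι × (σ →₀ ℕ) → Prop
  Rtrans : ∀ a b c, R a b → R b c → R a c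
  Rwf : WellFounded R
  Rmono : ∀ m a b, R a b → R (sh m a) (sh m b)
  Std : ι × (σ →₀ ℕ) → Prop
  s1 : ∀ v ∈ N, SuppIn v Std → v = 0
  s2 : ∀ τ, ¬ Std τ → ∃ n ∈ N, SuppIn (n - tm τ) (fun ρ => Std ρ ∧ R ρ τ)
  L : Type
  fin : Fintype L
  lead : L → ι × (σ →₀ ℕ)
  NM : L → Finset σ
  lt : L → L → Prop
  ltTrans : ∀ a b c, lt a b → lt b c → lt a c
  ltwf : WellFounded lt
  b1e : ∀ τ, ¬ Std τ → ∃ l m, (∀ i ∈ NM l, (m : σ →₀ ℕ) i = 0) ∧ sh m (lead l) = τ
  b1u : ∀ l m l' m', (∀ i ∈ NM l, (m : σ →₀ ℕ) i = 0) → (∀ i ∈ NM l', (m' : σ →₀ ℕ) i = 0) →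
    sh m (lead l) = sh m' (lead l') → l = l'
  b2 : ∀ l m, ¬ Std (sh m (lead l))
  b3 : ∀ l m l' m', (∀ i ∈ NM l', (m' : σ →₀ ℕ) i = 0) → sh m' (lead l') = sh m (lead l) →
    l' = l ∨ lt l' l

namespace Stage

variable {ι : Type} [Fintype ι] {N : Submodule (MvPolynomial σ k) (ι → MvPolynomial σ k)}
  (S : Stage ι N)

lemma Rirr (a : ι × (σ →₀ ℕ)) : ¬ S.R a a := fun h => S.Rwf.irrefl.irrefl a h

/-- The normal form element of `N` with leading term `τ`. -/
lemma exists_nn : ∃ nn : ι × (σ →₀ ℕ) → (ι → MvPolynomial σ k), (∀ τ, nn τ ∈ N) ∧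
    ∀ τ, ¬ S.Std τ → SuppIn (nn τ - tm τ) (fun ρ => S.Std ρ ∧ S.R ρ τ) := by
  classical
  have h : ∀ τ, ∃ n ∈ N, ¬ S.Std τ → SuppIn (n - tm τ) (fun ρ => S.Std ρ ∧ S.R ρ τ) := by
    intro τ
    by_cases hτ : S.Std τ
    · exact ⟨0, N.zero_mem, fun h => absurd hτ h⟩
    · obtain ⟨n, hn, h⟩ := S.s2 τ hτ
      exact ⟨n, hn, fun _ => h⟩
  choose nn hnn h2 using h
  exact ⟨nn, hnn, h2⟩

noncomputable def nn : ι × (σ →₀ ℕ) → (ι → MvPolynomial σ k) := S.exists_nn.choose

lemma nn_mem (τ : ι × (σ →₀ ℕ)) : S.nn τ ∈ N := S.exists_nn.choose_spec.1 τ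

lemma nn_supp {τ : ι × (σ →₀ ℕ)} (h : ¬ S.Std τ) :
    SuppIn (S.nn τ - tm τ) (fun ρ => S.Std ρ ∧ S.R ρ τ) := S.exists_nn.choose_spec.2 τ h

open Classical in
/-- Every element of `N` is the combination of the normal form elements of its leading terms. -/
lemma expandN (u : ι → MvPolynomial σ k) (hu : u ∈ N) :
    u = ∑ ρ ∈ (fsupp u).filter (fun ρ => ¬ S.Std ρ), (C (cf u ρ) : MvPolynomial σ k) • S.nn ρ := by
  rw [← sub_eq_zero]
  apply S.s1
  · refine N.sub_mem hu (N.sum_mem ?_)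
    intro ρ _
    exact N.smul_mem _ (S.nn_mem ρ)
  · intro τ hτ
    by_contra hns
    apply hτ
    rw [cf_sub, cf_sum]
    simp only [cf_C_smul]
    have key : ∀ ρ ∈ (fsupp u).filter (fun ρ => ¬ S.Std ρ), cf u ρ * cf (S.nn ρ) τ =
        if ρ = τ then cf u τ else 0 := by
      intro ρ hρ
      have hρ' := (Finset.mem_filter.1 hρ).2
      have h1 : cf (S.nn ρ - tm ρ) τ = 0 := by
        by_contra h
        exact hns (S.nn_supp hρ' τ h).1
      rw [cf_sub, sub_eq_zero] at h1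
      rw [h1, cf_tm]
      by_cases e : ρ = τ
      · simp [e]
      · simp [e]
    rw [Finset.sum_congr rfl key]
    by_cases hu0 : cf u τ = 0
    · simp [hu0]
    · rw [Finset.sum_eq_single τ]
      · simp
      · intro b _ hb
        simp [hb]
      · intro h'
        exact absurd (Finset.mem_filter.2 ⟨(mem_fsupp u τ).2 hu0, hns⟩) h'

/-- The value of a term of the next free module. -/
noncomputable def val (τ : S.L × (σ →₀ ℕ)) : ι × (σ →₀ ℕ) := sh τ.2 (S.lead τ.1)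

lemma val_sh (m : σ →₀ ℕ) (τ : S.L × (σ →₀ ℕ)) : S.val (sh m τ) = sh m (S.val τ) := by
  unfold val sh
  simp [add_assoc]

/-- Standard terms of the next free module. -/
def Std' (τ : S.L × (σ →₀ ℕ)) : Prop := ∀ i ∈ S.NM τ.1, τ.2 i = 0

/-- The order of the next free module. -/
def R' (a b : S.L × (σ →₀ ℕ)) : Prop :=
  S.R (S.val a) (S.val b) ∨ (S.val a = S.val b ∧ S.lt a.1 b.1)

lemma R'trans (a b c : S.L × (σ →₀ ℕ)) (h1 : S.R' a b) (h2 : S.R' b c) : S.R' a c := by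
  rcases h1 with h1 | ⟨h1, h1'⟩
  · rcases h2 with h2 | ⟨h2, _⟩
    · exact Or.inl (S.Rtrans _ _ _ h1 h2)
    · exact Or.inl (h2 ▸ h1)
  · rcases h2 with h2 | ⟨h2, h2'⟩
    · exact Or.inl (h1 ▸ h2)
    · exact Or.inr ⟨h1.trans h2, S.ltTrans _ _ _ h1' h2'⟩

lemma R'mono (m : σ →₀ ℕ) (a b : S.L × (σ →₀ ℕ)) (h : S.R' a b) : S.R' (sh m a) (sh m b) := by
  unfold R'
  rw [S.val_sh, S.val_sh]
  rcases h with h | ⟨h, h'⟩
  · exact Or.inl (S.Rmono _ _ _ h)
  · exact Or.inr ⟨by rw [h], h'⟩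

lemma R'wf : WellFounded S.R' := by
  have h : WellFounded (InvImage (Prod.Lex S.R S.lt) (fun a : S.L × (σ →₀ ℕ) => (S.val a, a.1))) :=
    InvImage.wf _ (WellFounded.prod_lex S.Rwf S.ltwf)
  refine Subrelation.wf ?_ h
  intro a b hab
  rcases hab with hab | ⟨hab, hab'⟩
  · exact Prod.Lex.left _ _ hab
  · show Prod.Lex S.R S.lt (S.val a, a.1) (S.val b, b.1)
    rw [hab]
    exact Prod.Lex.right _ hab'

instance : Fintype S.L := S.fin

/-- The next differential. -/
noncomputable def dd : (S.L → MvPolynomial σ k) →ₗ[MvPolynomial σ k] (ι → MvPolynomial σ k) :=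
  ∑ l, (LinearMap.proj l).smulRight (S.nn (S.lead l))

lemma dd_apply (v : S.L → MvPolynomial σ k) : S.dd v = ∑ l, v l • S.nn (S.lead l) := by
  simp [dd]

lemma dd_tm (τ : S.L × (σ →₀ ℕ)) :
    S.dd (tm τ) = (monomial τ.2 (1 : k) : MvPolynomial σ k) • S.nn (S.lead τ.1) := by
  classical
  rw [dd_apply, Finset.sum_eq_single τ.1]
  · simp [tm]
  · intro b _ hb
    simp [tm, hb]
  · intro h
    exact absurd (Finset.mem_univ _) h

lemma dd_C_smul (c : k) (v : S.L → MvPolynomial σ k) :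
    S.dd ((C c : MvPolynomial σ k) • v) = (C c : MvPolynomial σ k) • S.dd v := by
  rw [map_smul]

lemma dd_mem (v : S.L → MvPolynomial σ k) : S.dd v ∈ N := by
  rw [dd_apply]
  exact N.sum_mem fun l _ => N.smul_mem _ (S.nn_mem _)

lemma lead_not_std (l : S.L) : ¬ S.Std (S.lead l) := by
  have := S.b2 l 0
  rwa [sh_zero] at this

/-- The image of a term: its value plus smaller terms. -/
lemma dd_tm_supp (τ : S.L × (σ →₀ ℕ)) :
    SuppIn (S.dd (tm τ) - tm (S.val τ)) (fun ρ => S.R ρ (S.val τ)) := by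
  have h1 := S.nn_supp (S.lead_not_std τ.1)
  intro ρ hρ
  have e : S.dd (tm τ) - tm (S.val τ) =
      (monomial τ.2 (1 : k) : MvPolynomial σ k) • (S.nn (S.lead τ.1) - tm (S.lead τ.1)) := by
    rw [smul_sub, mono_smul_tm, dd_tm]
    rfl
  rw [e] at hρ
  obtain ⟨τ', h2, h3⟩ := cf_mono_smul_ne _ _ _ _ hρ
  have h4 := (h1 τ' h3).2
  rw [h2]
  exact S.Rmono _ _ _ h4

lemma lift_aux (τ : ι × (σ →₀ ℕ))
    (IH : ∀ ρ, S.R ρ τ → ¬ S.Std ρ → ∃ y : S.L → MvPolynomial σ k, S.dd y = S.nn ρ ∧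
      SuppIn y (fun t => S.Std' t ∧ (S.val t = ρ ∨ S.R (S.val t) ρ)))
    (u : ι → MvPolynomial σ k) (hu : u ∈ N) (hs : SuppIn u (fun ρ => S.R ρ τ)) :
    ∃ y : S.L → MvPolynomial σ k, S.dd y = u ∧
      SuppIn y (fun t => S.Std' t ∧ S.R (S.val t) τ) := by
  classical
  have h : ∀ ρ, ∃ y : S.L → MvPolynomial σ k, (S.R ρ τ → ¬ S.Std ρ → S.dd y = S.nn ρ ∧
      SuppIn y (fun t => S.Std' t ∧ (S.val t = ρ ∨ S.R (S.val t) ρ))) := by
    intro ρ
    by_cases h1 : S.R ρ τ
    · by_cases h2 : ¬ S.Std ρ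
      · obtain ⟨y, hy⟩ := IH ρ h1 h2
        exact ⟨y, fun _ _ => hy⟩
      · exact ⟨0, fun _ h => absurd h h2⟩
    · exact ⟨0, fun h => absurd h h1⟩
  choose y hy using h
  refine ⟨∑ ρ ∈ (fsupp u).filter (fun ρ => ¬ S.Std ρ), (C (cf u ρ) : MvPolynomial σ k) • y ρ,
    ?_, ?_⟩
  · conv_rhs => rw [S.expandN u hu]
    rw [map_sum]
    apply Finset.sum_congr rfl
    intro ρ hρ
    obtain ⟨h1, h2⟩ := Finset.mem_filter.1 hρ
    rw [dd_C_smul, (hy ρ (hs ρ ((mem_fsupp u ρ).1 h1)) h2).1]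
  · apply SuppIn.sum
    intro ρ hρ
    obtain ⟨h1, h2⟩ := Finset.mem_filter.1 hρ
    have h3 := hs ρ ((mem_fsupp u ρ).1 h1)
    apply SuppIn.C_smul
    refine (hy ρ h3 h2).2.mono ?_
    rintro t ⟨ht, ht'⟩
    refine ⟨ht, ?_⟩
    rcases ht' with ht' | ht'
    · rw [ht']; exact h3
    · exact S.Rtrans _ _ _ ht' h3

/-- Lifting the normal form elements through standard terms. -/
lemma lift (τ : ι × (σ →₀ ℕ)) (hτ : ¬ S.Std τ) :
    ∃ y : S.L → MvPolynomial σ k, S.dd y = S.nn τ ∧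
      SuppIn y (fun t => S.Std' t ∧ (S.val t = τ ∨ S.R (S.val t) τ)) := by
  induction τ using S.Rwf.induction with
  | h τ IH =>
    obtain ⟨l, m, hfree, hval⟩ := S.b1e τ hτ
    have hval' : S.val (l, m) = τ := hval
    have hs : SuppIn (S.dd (tm (l, m)) - S.nn τ) (fun ρ => S.R ρ τ) := by
      have h1 := S.dd_tm_supp (l, m)
      have h2 := S.nn_supp hτ
      rw [hval'] at h1
      have e : S.dd (tm (l, m)) - S.nn τ = (S.dd (tm (l, m)) - tm τ) - (S.nn τ - tm τ) := by abel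
      rw [e]
      exact h1.sub (h2.mono fun ρ h => h.2)
    obtain ⟨y, hy1, hy2⟩ := S.lift_aux τ (fun ρ hρ hρ' => IH ρ hρ hρ') _
      (N.sub_mem (S.dd_mem _) (S.nn_mem τ)) hs
    refine ⟨tm (l, m) - y, ?_, ?_⟩
    · rw [map_sub, hy1]
      abel
    · apply SuppIn.sub
      · apply SuppIn.tm
        exact ⟨hfree, Or.inl hval'⟩
      · exact hy2.mono fun t ht => ⟨ht.1, Or.inr ht.2⟩

lemma range_dd : LinearMap.range S.dd = N := by
  classical
  apply le_antisymm
  · rintro _ ⟨v, rfl⟩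
    exact S.dd_mem v
  · intro u hu
    rw [S.expandN u hu]
    apply Submodule.sum_mem
    intro ρ hρ
    obtain ⟨h1, h2⟩ := Finset.mem_filter.1 hρ
    obtain ⟨y, hy, _⟩ := S.lift ρ h2
    apply Submodule.smul_mem
    exact ⟨y, hy⟩

lemma val_inj_std {a b : S.L × (σ →₀ ℕ)} (ha : S.Std' a) (hb : S.Std' b)
    (h : S.val a = S.val b) : a = b := by
  obtain ⟨l, m⟩ := a
  obtain ⟨l', m'⟩ := b
  have h1 : l = l' := S.b1u l m l' m' ha hb h
  subst h1
  have h2 : sh m (S.lead l) = sh m' (S.lead l) := h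
  unfold sh at h2
  simp only [Prod.mk.injEq, true_and, add_left_inj] at h2
  rw [h2]

lemma exists_max {α β : Type} (R : β → β → Prop) (ht : ∀ a b c, R a b → R b c → R a c)
    (hi : ∀ a, ¬ R a a) (f : α → β) (s : Finset α) (hs : s.Nonempty) :
    ∃ a ∈ s, ∀ b ∈ s, ¬ R (f a) (f b) := by
  classical
  induction hs using Finset.Nonempty.cons_induction with
  | singleton a =>
    exact ⟨a, Finset.mem_singleton_self a, fun b hb => by
      rw [Finset.mem_singleton.1 hb]; exact hi _⟩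
  | cons x s hx _ ih =>
    obtain ⟨a, ha, hmax⟩ := ih
    by_cases h : R (f a) (f x)
    · refine ⟨x, Finset.mem_cons_self x s, ?_⟩
      intro b hb
      rcases Finset.mem_cons.1 hb with rfl | hb
      · exact hi _
      · intro h'
        exact hmax b hb (ht _ _ _ h h')
    · refine ⟨a, Finset.mem_cons.2 (Or.inr ha), ?_⟩
      intro b hb
      rcases Finset.mem_cons.1 hb with rfl | hb
      · exact h
      · exact hmax b hb

lemma s1' (v : S.L → MvPolynomial σ k) (hv : v ∈ LinearMap.ker S.dd) (hs : SuppIn v S.Std') :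
    v = 0 := by
  classical
  by_contra hne
  have hne' : (fsupp v).Nonempty := by
    rw [Finset.nonempty_iff_ne_empty]
    intro h
    apply hne
    rw [expand v, h, Finset.sum_empty]
  obtain ⟨a, ha, hmax⟩ := exists_max S.R S.Rtrans S.Rirr S.val (fsupp v) hne'
  have ha' := (mem_fsupp v a).1 ha
  apply ha'
  have h0 : cf (S.dd v) (S.val a) = 0 := by
    rw [LinearMap.mem_ker.1 hv, cf_zero]
  rw [expand v, map_sum, cf_sum] at h0
  rw [Finset.sum_eq_single a] at h0
  · rw [dd_C_smul, cf_C_smul] at h0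
    have h1 : cf (S.dd (tm a)) (S.val a) = 1 := by
      have h2 : cf (S.dd (tm a) - tm (S.val a)) (S.val a) = 0 := by
        by_contra h
        exact S.Rirr _ (S.dd_tm_supp a _ h)
      rw [cf_sub, cf_tm_self, sub_eq_zero] at h2
      exact h2
    rw [h1, mul_one] at h0
    exact h0
  · intro b hb hba
    rw [dd_C_smul, cf_C_smul]
    have h2 : cf (S.dd (tm b) - tm (S.val b)) (S.val a) = 0 := by
      by_contra h
      exact hmax b hb (S.dd_tm_supp b _ h)
    rw [cf_sub, sub_eq_zero] at h2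
    rw [h2, cf_tm, if_neg, mul_zero]
    intro e
    exact hba (S.val_inj_std (hs b ((mem_fsupp v b).1 hb)) (hs a ha') e)
  · intro h
    exact absurd ha h

lemma s2' (t : S.L × (σ →₀ ℕ)) (ht : ¬ S.Std' t) :
    ∃ n ∈ LinearMap.ker S.dd, SuppIn (n - tm t) (fun ρ => S.Std' ρ ∧ S.R' ρ t) := by
  have hns : ¬ S.Std (S.val t) := S.b2 t.1 t.2
  have hs : SuppIn (S.dd (tm t) - S.nn (S.val t)) (fun ρ => S.R ρ (S.val t)) := by
    have h1 := S.dd_tm_supp t
    have h2 := S.nn_supp hns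
    have e : S.dd (tm t) - S.nn (S.val t) =
      (S.dd (tm t) - tm (S.val t)) - (S.nn (S.val t) - tm (S.val t)) := by abel
    rw [e]
    exact h1.sub (h2.mono fun ρ h => h.2)
  obtain ⟨y, hy1, hy2⟩ := S.lift_aux (S.val t) (fun ρ _ hρ' => S.lift ρ hρ') _
    (N.sub_mem (S.dd_mem _) (S.nn_mem _)) hs
  obtain ⟨z, hz1, hz2⟩ := S.lift (S.val t) hns
  refine ⟨tm t - y - z, ?_, ?_⟩
  · rw [LinearMap.mem_ker, map_sub, map_sub, hy1, hz1]
    abel
  · have e : tm t - y - z - tm t = -y + -z := by abel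
    rw [e]
    apply SuppIn.add
    · apply SuppIn.neg
      exact hy2.mono fun ρ h => ⟨h.1, Or.inl h.2⟩
    · apply SuppIn.neg
      refine hz2.mono ?_
      rintro ρ ⟨h1, h2⟩
      refine ⟨h1, ?_⟩
      rcases h2 with h2 | h2
      · right
        refine ⟨h2, ?_⟩
        rcases S.b3 t.1 t.2 ρ.1 ρ.2 h1 h2 with h3 | h3
        · exfalso
          apply ht
          have h4 : sh ρ.2 (S.lead ρ.1) = sh t.2 (S.lead t.1) := h2
          rw [h3] at h4
          unfold sh at h4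
          simp only [Prod.mk.injEq, true_and, add_left_inj] at h4
          intro i hi
          rw [← h4]
          apply h1
          rw [h3]
          exact hi
        · exact h3
      · left
        exact h2

variable [LinearOrder σ] [Finite σ]

/-- The next stage. -/
noncomputable def next : Stage S.L (LinearMap.ker S.dd) where
  R := S.R'
  Rtrans := S.R'trans
  Rwf := S.R'wf
  Rmono := S.R'mono
  Std := S.Std'
  s1 := S.s1'
  s2 := S.s2'
  L := Σ l : S.L, {j // j ∈ S.NM l}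
  fin := inferInstance
  lead := fun x => (x.1, Finsupp.single x.2.1 1)
  NM := fun x => (S.NM x.1).filter (fun j => j < x.2.1)
  lt := fun x y => x.2.1 < y.2.1
  ltTrans := fun a b c h h' => lt_trans h h'
  ltwf := InvImage.wf (fun x : (Σ l : S.L, {j // j ∈ S.NM l}) => x.2.1) wellFounded_lt
  b1e := by
    classical
    rintro ⟨l, m⟩ h
    have h' : ((S.NM l).filter (fun i => m i ≠ 0)).Nonempty := by
      by_contra hc
      rw [Finset.not_nonempty_iff_eq_empty, Finset.filter_eq_empty_iff] at hc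
      apply h
      intro i hi
      by_contra h2
      exact hc hi h2
    obtain ⟨hj, hj'⟩ := Finset.mem_filter.1 (Finset.min'_mem _ h')
    set j := Finset.min' _ h' with hjdef
    refine ⟨⟨l, ⟨j, hj⟩⟩, m - Finsupp.single j 1, ?_, ?_⟩
    · intro i hi
      obtain ⟨h1, h2⟩ := Finset.mem_filter.1 hi
      simp only at h2
      have h3 : m i = 0 := by
        by_contra h4
        have hmem : i ∈ (S.NM l).filter (fun i => m i ≠ 0) := Finset.mem_filter.2 ⟨h1, h4⟩
        have := Finset.min'_le _ i hmem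
        exact absurd h2 (not_lt.2 this)
      simp [h3]
    · unfold sh
      simp only
      rw [tsub_add_cancel_of_le]
      rw [Finsupp.single_le_iff]
      omega
  b1u := by
    rintro ⟨l, ⟨j, hj⟩⟩ m ⟨l', ⟨j', hj'⟩⟩ m' h1 h2 h3
    unfold sh at h3
    simp only [Prod.mk.injEq] at h3
    obtain ⟨rfl, h4⟩ := h3
    have h5 : j = j' := by
      rcases lt_trichotomy j j' with h | h | h
      · exfalso
        have h6 := h2 j (Finset.mem_filter.2 ⟨hj, h⟩)
        have h7 := DFunLike.congr_fun h4 j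
        simp [h6, h.ne'] at h7
      · exact h
      · exfalso
        have h6 := h1 j' (Finset.mem_filter.2 ⟨hj', h⟩)
        have h7 := DFunLike.congr_fun h4 j'
        simp [h6, h.ne'] at h7
    subst h5
    rfl
  b2 := by
    rintro ⟨l, ⟨j, hj⟩⟩ m h
    have := h j hj
    simp [sh] at this
  b3 := by
    rintro ⟨l, ⟨j, hj⟩⟩ m ⟨l', ⟨j', hj'⟩⟩ m' h1 h3
    unfold sh at h3
    simp only [Prod.mk.injEq] at h3
    obtain ⟨rfl, h4⟩ := h3
    rcases lt_trichotomy j j' with h | h | h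
    · exfalso
      have h6 := h1 j (Finset.mem_filter.2 ⟨hj, h⟩)
      have h7 := DFunLike.congr_fun h4 j
      simp [h6, h.ne'] at h7
    · subst h
      exact Or.inl rfl
    · right
      exact h

end Stage

end Pool.Agent.Helper33.BW
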